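import Pool.Agent.QT.D0

set_option autoImplicit false

/-!
# [XS-A1] the local image of `1 + i` is isotropic

`y² = x³ - d x` over a field which contains `j`, `j² = -1`. For two points `(x, y)`, `(x', y')` the element `x` is of the form `u² - x' v²`.
-/

namespace XS

open QTD

section
variable {L : Type} [Field L]

/-- `b` times a square is of the form `u² - c v²` -/
def Hs (b c : L) : Prop := ∃ u v w : L, w ≠ 0 ∧ b * w ^ 2 = u ^ 2 - c * v ^ 2

theorem hs_sq_right (h2 : (2 : L) ≠ 0) {b c : L} (hc0 : c ≠ 0) (hc : IsSquare c) : Hs b c := by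
  obtain ⟨s, hs⟩ := hc
  have hs0 : s ≠ 0 := by
    rintro rfl
    exact hc0 (by rw [hs, mul_zero])
  refine ⟨(b + 1) / 2, (b - 1) / (2 * s), 1, one_ne_zero, ?_⟩
  rw [hs]
  field_simp
  ring

theorem hs_sq_left {b c : L} (hb : IsSquare b) : Hs b c := by
  obtain ⟨s, hs⟩ := hb
  exact ⟨s, 0, 1, one_ne_zero, by rw [hs]; ring⟩

/-- symmetry -/
theorem hs_symm (h2 : (2 : L) ≠ 0) {b c : L} (hb : b ≠ 0) (h : Hs b c) : Hs c b := by
  obtain ⟨u, v, w, hw, h⟩ := h
  by_cases hv : v = 0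
  · subst hv
    have h1 : IsSquare b := by
      refine ⟨u / w, ?_⟩
      field_simp
      linear_combination h
    exact hs_sq_right h2 hb h1
  · exact ⟨u, w, v, hv, by linear_combination h⟩

/-- multiplication of `b` by a square -/
theorem hs_mul_sq {b c s : L} (hs : s ≠ 0) : Hs (b * s ^ 2) c ↔ Hs b c := by
  constructor
  · rintro ⟨u, v, w, hw, h⟩
    exact ⟨u, v, s * w, mul_ne_zero hs hw, by linear_combination h⟩
  · rintro ⟨u, v, w, hw, h⟩
    exact ⟨u * s, v * s, w, hw, by linear_combination s ^ 2 * h⟩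

theorem hs_of_mul {b x c : L} (hx : x ≠ 0) (h : IsSquare (b * x)) (hb : b ≠ 0) (h1 : Hs x c) : Hs b c := by
  obtain ⟨r, hr⟩ := h
  have hr0 : r ≠ 0 := by
    rintro rfl
    rw [mul_zero] at hr
    exact mul_ne_zero hb hx hr
  obtain ⟨u, v, w, hw, h1⟩ := h1
  refine ⟨u * r, v * r, w * x, mul_ne_zero hw hx, ?_⟩
  linear_combination r ^ 2 * h1 + w ^ 2 * x * hr

/-- two points -/
theorem iso_pts {j d x y x' y' : L} (hj : j ^ 2 = -1) (h2 : (2 : L) ≠ 0) (hx : x ≠ 0) (hxy : y ^ 2 = x ^ 3 - d * x)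
    (hx' : x' ≠ 0) (hxy' : y' ^ 2 = x' ^ 3 - d * x') : Hs x x' := by
  have hj1 : 1 + j ≠ 0 := by
    intro h
    have h1 : j = -1 := by linear_combination h
    rw [h1] at hj
    apply h2
    linear_combination hj
  by_cases hN : x ^ 2 - 2 * j * x * x' - d = 0
  · refine hs_sq_right h2 hx' ⟨y / ((1 + j) * x), ?_⟩
    have h1 : y ^ 2 = 2 * j * x ^ 2 * x' := by linear_combination hxy + x * hN
    field_simp
    linear_combination -h1 + x' * x ^ 2 * hj
  · refine ⟨y * (x - j * x') + (j - 1) * x * y', (x' * (1 + j) * x * (x - j * x') + j * y * y') / x',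
      x ^ 2 - 2 * j * x * x' - d, hN, ?_⟩
    have key : x * x' * (x ^ 2 - 2 * j * x * x' - d) ^ 2 = x' * (y * (x - j * x') + (j - 1) * x * y') ^ 2 -
        (x' * (1 + j) * x * (x - j * x') + j * y * y') ^ 2 := by
      linear_combination ((-1) * x' * x ^ 2 + (2) * x' ^ 2 * j * x + (-1) * x' ^ 3 * j ^ 2 + (1) * y' ^ 2 * j ^ 2) * hxy +
        ((2) * x' * j * x ^ 2 + (-1) * x' * j ^ 2 * x ^ 2 + (-1) * x' * x ^ 2 + (-1) * d * j ^ 2 * x + (1) * j ^ 2 * x ^ 3) * hxy' +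
        ((2) * x' * y' * x ^ 2 * y + (-1) * x' * d * x ^ 3 + (1) * x' * d ^ 2 * x + (-2) * x' ^ 2 * y' * j * x * y +
          (1) * x' ^ 2 * d * x ^ 2 + (1) * x' ^ 2 * x ^ 4 + (-2) * x' ^ 3 * j * x ^ 3 + (2) * x' ^ 4 * j * x ^ 2 +
          (1) * x' ^ 4 * j ^ 2 * x ^ 2 + (-1) * x' ^ 4 * x ^ 2) * hj
    rw [div_pow]
    field_simp
    linear_combination key

/-- `d` and a point -/
theorem iso_d {d x y : L} (h2 : (2 : L) ≠ 0) (hd : d ≠ 0) (hx : x ≠ 0) (hxy : y ^ 2 = x ^ 3 - d * x) : Hs d x := by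
  refine ⟨x, y / x, 1, one_ne_zero, ?_⟩
  field_simp
  linear_combination hxy

/-- `d` and `d` -/
theorem iso_dd {j d : L} (hj : j ^ 2 = -1) : Hs d d := ⟨0, j, 1, one_ne_zero, by linear_combination d * hj⟩

end

/-- **[XS-A1]** two elements of the local image -/
theorem iso {F : Type} [Field F] {L : Type} [Field L] [Algebra F L] {j : L} (hj : j ^ 2 = -1) (h2 : (2 : L) ≠ 0)
    {d b c : F} (hd : d ≠ 0) (hb : b ≠ 0) (hc : c ≠ 0) (h : LocB d b L) (h' : LocB d c L) :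
    Hs (algebraMap F L b) (algebraMap F L c) := by
  have hd' : algebraMap F L d ≠ 0 := (map_ne_zero _).2 hd
  have hb' : algebraMap F L b ≠ 0 := (map_ne_zero _).2 hb
  have hc' : algebraMap F L c ≠ 0 := (map_ne_zero _).2 hc
  unfold LocB at h h'
  rw [map_mul] at h h'
  -- the first element against `e`
  have key : ∀ e : L, e ≠ 0 → Hs (algebraMap F L d) e →
      (∀ x y : L, x ≠ 0 → y ^ 2 = x ^ 3 - algebraMap F L d * x → Hs x e) → Hs (algebraMap F L b) e := by
    intro e he h3 h4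
    rcases h with h | h | ⟨x, y, hx, hxy, h⟩
    · exact hs_sq_left h
    · exact hs_of_mul hd' (by rwa [mul_comm]) hb' h3
    · exact hs_of_mul hx h hb' (h4 x y hx hxy)
  rcases h' with h' | h' | ⟨x', y', hx', hxy', h'⟩
  · exact hs_sq_right h2 hc' h'
  · refine key _ hc' ?_ ?_
    · exact hs_symm h2 hc' (hs_of_mul hd' (by rwa [mul_comm]) hc' (iso_dd hj))
    · intro x y hx hxy
      exact hs_symm h2 hc' (hs_of_mul hd' (by rwa [mul_comm]) hc' (iso_d h2 hd' hx hxy))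
  · refine key _ hc' ?_ ?_
    · exact hs_symm h2 hc' (hs_of_mul hx' h' hc' (hs_symm h2 hd' (iso_d h2 hd' hx' hxy')))
    · intro x y hx hxy
      exact hs_symm h2 hc' (hs_of_mul hx' h' hc' (hs_symm h2 hx (iso_pts hj h2 hx hxy hx' hxy')))

end XS
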