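import Pool.Agent.XS.A1
import Pool.Agent.PI.T5b
import Pool.Agent.EQT.D1
import Pool.Agent.QT.D14c
import Pool.Agent.XQ.A3

set_option autoImplicit false

open NumberField IsDedekindDomain
open scoped Classical

/-!
# [XS-A9] the local images at the odd places
-/

namespace XS

open PI (Gi KI eG emK la la_prime pl ii sy Prim)
open QTD

/-- a solution with `c` of odd valuation -/
theorem hs_odd {F : Type} [Field F] [NumberField F] (v : HeightOneSpectrum (𝓞 F)) (h2 : v.valuation F 2 = 1)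
    {j b c : v.adicCompletion F} (hj : j ^ 2 = -1) (hc : Valued.v c = (WithZero.exp (-1) : WithZero (Multiplicative ℤ)))
    (h : Hs b c) : IsSquare b ∨ IsSquare (c * b) := by
  obtain ⟨x, y, w, hw, h⟩ := h
  have hc0 : c ≠ 0 := by
    rintro rfl
    rw [map_zero] at hc
    exact WithZero.exp_ne_zero hc.symm
  by_cases hx : x = 0
  · right
    rw [← PID.d14d_sq hw]
    refine ⟨j * c * y, ?_⟩
    rw [hx] at h
    linear_combination c * h - c ^ 2 * y ^ 2 * hj
  by_cases hy : y = 0
  · left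
    rw [← PID.d14d_sq hw]
    refine ⟨x, ?_⟩
    rw [hy] at h
    linear_combination h
  obtain ⟨m, hm⟩ := PID.d13a_exists (Valued.v (R := v.adicCompletion F)) hx
  obtain ⟨n, hn⟩ := PID.d13a_exists (Valued.v (R := v.adicCompletion F)) hy
  have hm2 : Valued.v (x ^ 2) = (WithZero.exp (2 * m) : WithZero (Multiplicative ℤ)) := by
    rw [map_pow, hm, PID.d13a_pow]
    norm_num
  have hn2 : Valued.v (c * y ^ 2) = (WithZero.exp (2 * n - 1) : WithZero (Multiplicative ℤ)) := by
    rw [map_mul, hc, map_pow, hn, PID.d13a_pow, ← WithZero.exp_add]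
    congr 1
    push_cast
    ring
  have hx2 : x ^ 2 ≠ 0 := pow_ne_zero _ hx
  have hcy : c * y ^ 2 ≠ 0 := mul_ne_zero hc0 (pow_ne_zero _ hy)
  have une : ∀ u : v.adicCompletion F, Valued.v (u - 1) < (1 : WithZero (Multiplicative ℤ)) → u ≠ 0 := by
    rintro u hu rfl
    rw [zero_sub, Valuation.map_neg, map_one] at hu
    exact lt_irrefl _ hu
  rcases lt_trichotomy (2 * m) (2 * n - 1) with h3 | h3 | h3
  · right
    have hu : Valued.v ((1 - x ^ 2 / (c * y ^ 2)) - 1) < (1 : WithZero (Multiplicative ℤ)) := by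
      rw [show (1 - x ^ 2 / (c * y ^ 2)) - 1 = -(x ^ 2 / (c * y ^ 2)) by ring, Valuation.map_neg, map_div₀, hm2, hn2]
      rw [div_lt_one₀ (zero_lt_iff.2 WithZero.exp_ne_zero), WithZero.exp_lt_exp]
      exact h3
    rw [← PID.d14d_sq hw]
    refine PID.d12_neg_sq hj ?_
    have e : -(c * b * w ^ 2) = (c * y) * (c * y) * (1 - x ^ 2 / (c * y ^ 2)) := by
      field_simp
      linear_combination -h
    rw [e]
    exact (IsSquare.mul_self _).mul (PID.sq_of_one v h2 _ hu)
  · exfalso
    omega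
  · left
    have hu : Valued.v ((1 - c * y ^ 2 / x ^ 2) - 1) < (1 : WithZero (Multiplicative ℤ)) := by
      rw [show (1 - c * y ^ 2 / x ^ 2) - 1 = -(c * y ^ 2 / x ^ 2) by ring, Valuation.map_neg, map_div₀, hm2, hn2]
      rw [div_lt_one₀ (zero_lt_iff.2 WithZero.exp_ne_zero), WithZero.exp_lt_exp]
      exact h3
    rw [← PID.d14d_sq hw]
    have e : b * w ^ 2 = x * x * (1 - c * y ^ 2 / x ^ 2) := by
      field_simp
      linear_combination h
    rw [e]
    exact (IsSquare.mul_self _).mul (PID.sq_of_one v h2 _ hu)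

section
variable {v : HeightOneSpectrum (𝓞 KI)} {p : Gi} (hp : Prime p) (hP : Prim p) (hv : v.asIdeal = Ideal.span {eG p})
include hp hP hv

/-- squares of `ℤ[i]` in the completion -/
theorem sq_iff {a : Gi} (ha : ¬ p ∣ a) : IsSquare (algebraMap KI (v.adicCompletion KI) (emK a)) ↔ sy a p = 0 :=
  ⟨fun h => PID.sy_of_sq hv ha h, fun h => EQ1.sq_of_sy hp hP hv ha h⟩

theorem val_pow {a : Gi} (ha : ¬ p ∣ a) (n : ℕ) : v.valuation KI (emK (p ^ n * a)) = WithZero.exp (-(n : ℤ)) := by
  rw [map_mul, map_mul, map_pow, map_pow, (PID.val_eq_one_iff hv a).2 ha, mul_one, PID.val_self hv, PID.d13a_pow]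
  congr 1
  ring

/-- squares: `p^n a`, `n` even -/
theorem sq_even {a : Gi} (ha : ¬ p ∣ a) (n : ℕ) :
    IsSquare (algebraMap KI (v.adicCompletion KI) (emK (p ^ (2 * n) * a))) ↔ sy a p = 0 := by
  rw [← sq_iff hp hP hv ha]
  have e : p ^ (2 * n) * a = a * (p ^ n) ^ 2 := by
    rw [← pow_mul, mul_comm n 2]
    ring
  rw [e, map_mul, map_mul, map_pow, map_pow]
  exact PID.d14d_sq ((map_ne_zero _).2 (PID.emK_ne (pow_ne_zero _ hp.ne_zero)))

/-- no squares: `p^n a`, `n` odd -/
theorem not_sq {a : Gi} (ha : ¬ p ∣ a) {n : ℕ} (hn : Odd n) :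
    ¬ IsSquare (algebraMap KI (v.adicCompletion KI) (emK (p ^ n * a))) := by
  refine not_sq_odd v (n := -(n : ℤ)) ?_ (val_pow hp hP hv ha n)
  obtain ⟨k, hk⟩ := hn
  exact ⟨-(k : ℤ) - 1, by rw [hk]; push_cast; ring⟩

/-- **[XS-A9a]** odd exponents -/
theorem loc_odd {D' m : Gi} (hD : ¬ p ∣ D') (hm : ¬ p ∣ m) {a z : ℕ} (ha : Odd a) (hz : z ≤ 1) :
    LocB (emK (p ^ a * D')) (emK (p ^ z * m)) (v.adicCompletion KI) ↔ sy m p = sy D' p * (z : ZMod 2) := by
  have h2 := EQ1.d4_two hp hP hv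
  have hDm : ¬ p ∣ D' * m := fun h => (hp.dvd_or_dvd h).elim hD hm
  have key : LocB (emK (p ^ a * D')) (emK (p ^ z * m)) (v.adicCompletion KI) ↔
      IsSquare (algebraMap KI (v.adicCompletion KI) (emK (p ^ z * m))) ∨
      IsSquare (algebraMap KI (v.adicCompletion KI) (emK (p ^ a * D') * emK (p ^ z * m))) := by
    constructor
    · intro h
      exact sq_of_locB v PID.emK_ii h2 ha (val_pow hp hP hv hD a) h
    · rintro (h | h)
      · exact Or.inl h
      · exact Or.inr (Or.inl h)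
  have e : emK (p ^ a * D') * emK (p ^ z * m) = emK (p ^ (a + z) * (D' * m)) := by
    rw [← map_mul]
    congr 1
    ring
  rw [key, e]
  rcases (by omega : z = 0 ∨ z = 1) with rfl | rfl
  · have h3 := sq_even hp hP hv hm 0
    rw [mul_zero] at h3
    rw [h3, Nat.cast_zero, mul_zero]
    exact ⟨fun h => h.elim id fun h => absurd h (not_sq hp hP hv hDm (by rwa [add_zero])), Or.inl⟩
  · obtain ⟨k, hk⟩ := ha
    have h3 := sq_even hp hP hv hDm (k + 1)
    have e2 : a + 1 = 2 * (k + 1) := by omega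
    rw [e2, h3, PI.sy_mul hp hP hD hm, Nat.cast_one, mul_one]
    have h4 : sy D' p + sy m p = 0 ↔ sy m p = sy D' p := by
      have : ∀ x y : ZMod 2, x + y = 0 ↔ y = x := by decide
      exact this _ _
    rw [h4]
    exact ⟨fun h => h.elim (fun h => absurd h (not_sq hp hP hv hm odd_one)) id, Or.inr⟩

/-- **[XS-A9b]** exponent `2`, `D'` not a square modulo `p` -/
theorem loc_ns {D' m : Gi} (hD : ¬ p ∣ D') (hm : ¬ p ∣ m) (hs : sy D' p = 1) {z : ℕ} (hz : z ≤ 1) :
    LocB (emK (p ^ 2 * D')) (emK (p ^ z * m)) (v.adicCompletion KI) ↔ z = 0 := by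
  have hDm : ¬ p ∣ D' * m := fun h => (hp.dvd_or_dvd h).elim hD hm
  constructor
  · intro h
    obtain ⟨g, hg⟩ := val_b_sq_two hv hD (by rw [hs]; exact one_ne_zero) h
    rw [val_pow hp hP hv hm z] at hg
    have hg0 : g ≠ 0 := by
      rintro rfl
      rw [zero_pow two_ne_zero] at hg
      exact WithZero.exp_ne_zero hg
    rw [← WithZero.exp_log hg0, PID.d13a_pow, WithZero.exp_inj] at hg
    push_cast at hg
    omega
  · rintro rfl
    rcases PI.sy_cases m p with h1 | h1
    · left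
      have h3 := sq_even hp hP hv hm 0
      rw [mul_zero] at h3
      exact h3.2 h1
    · right
      left
      have e : emK (p ^ 2 * D') * emK (p ^ 0 * m) = emK (p ^ (2 * 1) * (D' * m)) := by
        rw [← map_mul]
        congr 1
        ring
      rw [e, sq_even hp hP hv hDm 1, PI.sy_mul hp hP hD hm, hs, h1]
      decide

/-- **[XS-A9c]** exponent `2`, `D'` a square modulo `p` -/
theorem loc_sp {D' m : Gi} (hD : ¬ p ∣ D') (hm : ¬ p ∣ m) (hs : sy D' p = 0) {z : ℕ} (hz : z ≤ 1) :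
    LocB (emK (p ^ 2 * D')) (emK (p ^ z * m)) (v.adicCompletion KI) ↔ sy m p = QT.q4 p D' * (z : ZMod 2) := by
  have h2 := EQ1.d4_two hp hP hv
  obtain ⟨δ, hδ⟩ := (PI.sy_eq_zero_iff D' p).1 hs
  have hpδ : ¬ p ∣ δ := by
    intro h
    apply hD
    have e : D' = δ ^ 2 - (δ ^ 2 - D') := by ring
    rw [e]
    exact dvd_sub (dvd_pow h two_ne_zero) hδ
  -- the exact square root
  obtain ⟨d0, hd0⟩ := EQ1.sq_of_sy hp hP hv hD hs
  have hq4 : QT.q4 p D' = sy δ p := by
    unfold QT.q4
    split_ifs with h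
    · obtain ⟨r, hr⟩ := h
      symm
      rw [PI.sy_eq_zero_iff]
      have h3 : p ∣ (r ^ 2 - δ) * (r ^ 2 + δ) := by
        have e : (r ^ 2 - δ) * (r ^ 2 + δ) = (r ^ 4 - D') - (δ ^ 2 - D') := by ring
        rw [e]
        exact dvd_sub hr hδ
      rcases hp.dvd_or_dvd h3 with h4 | h4
      · exact ⟨r, h4⟩
      · refine ⟨ii * r, ?_⟩
        have e1 : ii ^ 2 = -1 := by decide
        have e : (ii * r) ^ 2 - δ = -(r ^ 2 + δ) := by linear_combination r ^ 2 * e1
        rw [e]
        exact h4.neg_right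
    · rcases PI.sy_cases δ p with h3 | h3
      · exfalso
        obtain ⟨c, hc⟩ := (PI.sy_eq_zero_iff δ p).1 h3
        apply h
        refine ⟨c, ?_⟩
        have e : c ^ 4 - D' = (c ^ 2 - δ) * (c ^ 2 + δ) + (δ ^ 2 - D') := by ring
        rw [e]
        exact dvd_add (hc.mul_right _) hδ
      · exact h3.symm
  set f : KI →+* v.adicCompletion KI := algebraMap KI (v.adicCompletion KI) with hf
  have hp0 : f (emK p) ≠ 0 := (map_ne_zero _).2 (PID.emK_ne hp.ne_zero)
  have hD0 : f (emK D') ≠ 0 := (map_ne_zero _).2 (PID.emK_ne fun h => hD (by rw [h]; exact dvd_zero _))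
  have hδ0 : f (emK δ) ≠ 0 := (map_ne_zero _).2 (PID.emK_ne fun h => hpδ (by rw [h]; exact dvd_zero _))
  have hd00 : d0 ≠ 0 := by
    rintro rfl
    rw [mul_zero] at hd0
    exact hD0 hd0
  -- `δ d0` is a square, up to sign of `d0`
  obtain ⟨e0, he0, he1⟩ : ∃ e0 : v.adicCompletion KI, f (emK D') = e0 * e0 ∧ IsSquare (f (emK δ) * e0) := by
    have h3 : Valued.v ((f (emK δ) - d0) * (f (emK δ) + d0)) < (1 : WithZero (Multiplicative ℤ)) := by
      have e : (f (emK δ) - d0) * (f (emK δ) + d0) = f (emK (δ ^ 2 - D')) := by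
        rw [map_sub, map_sub, map_pow, map_pow]
        linear_combination hd0
      rw [e, EQ1.d4_hval, PID.val_lt_one_iff hv]
      exact hδ
    rw [map_mul] at h3
    have h4 : ∀ e : v.adicCompletion KI, Valued.v (f (emK δ) - e) < (1 : WithZero (Multiplicative ℤ)) →
        IsSquare (f (emK δ) * e) := by
      intro e he
      have hvδ : Valued.v (f (emK δ)) = (1 : WithZero (Multiplicative ℤ)) := by
        rw [EQ1.d4_hval]
        exact (PID.val_eq_one_iff hv δ).2 hpδ
      have hve : Valued.v e = (1 : WithZero (Multiplicative ℤ)) := by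
        have e1 : e = f (emK δ) - (f (emK δ) - e) := by ring
        rw [e1, Valuation.map_sub_eq_of_lt_left _ (by rw [hvδ]; exact he), hvδ]
      refine EQ1.d4_sq_of_sq_mod v h2 (s := f (emK δ)) (by rw [map_mul, hvδ, hve, one_mul]) ?_
      have e1 : f (emK δ) * e - f (emK δ) ^ 2 = -(f (emK δ) * (f (emK δ) - e)) := by ring
      rw [e1, Valuation.map_neg, map_mul, hvδ, one_mul]
      exact he
    by_cases h5 : Valued.v (f (emK δ) - d0) < (1 : WithZero (Multiplicative ℤ))
    · exact ⟨d0, hd0, h4 d0 h5⟩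
    · refine ⟨-d0, by rw [hd0]; ring, h4 (-d0) ?_⟩
      by_contra h6
      rw [sub_neg_eq_add] at h6
      push Not at h5 h6
      exact absurd h3 (not_lt.2 (one_le_mul h5 h6))
  have he00 : e0 ≠ 0 := by
    rintro rfl
    rw [mul_zero] at he0
    exact hD0 he0
  -- the point `(p e0, 0)`
  have hpt : ∀ {c : Gi}, IsSquare (f (emK c) * (f (emK p) * e0)) →
      LocB (emK (p ^ 2 * D')) (emK c) (v.adicCompletion KI) := by
    intro c hc
    right
    right
    refine ⟨f (emK p) * e0, 0, mul_ne_zero hp0 he00, ?_, hc⟩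
    show (0 : v.adicCompletion KI) ^ 2 = (f (emK p) * e0) ^ 3 - f (emK (p ^ 2 * D')) * (f (emK p) * e0)
    rw [map_mul, map_mul, map_pow, map_pow, he0]
    ring
  have hmδ : ¬ p ∣ m * δ := fun h => (hp.dvd_or_dvd h).elim hm hpδ
  have hsum : ∀ x y : ZMod 2, x + y = 0 ↔ x = y := by decide
  constructor
  · intro h
    have h3 : LocB (emK (p ^ 2 * D')) (emK (p * δ)) (v.adicCompletion KI) := by
      apply hpt
      have e : f (emK (p * δ)) * (f (emK p) * e0) = f (emK δ) * e0 * f (emK p) ^ 2 := by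
        rw [map_mul, map_mul]
        ring
      rw [e]
      exact (PID.d14d_sq hp0).2 he1
    have hj : f (emK ii) ^ 2 = -1 := by
      rw [← map_pow, ← map_pow]
      have e : ii ^ 2 = -1 := by decide
      rw [e, map_neg, map_neg, map_one, map_one]
    have h4 := iso hj (PI.t5b_two_ne v) (PID.emK_ne (mul_ne_zero (pow_ne_zero 2 hp.ne_zero)
      fun h => hD (by rw [h]; exact dvd_zero _))) (PID.emK_ne (mul_ne_zero (pow_ne_zero z hp.ne_zero)
      fun h => hm (by rw [h]; exact dvd_zero _))) (PID.emK_ne (mul_ne_zero hp.ne_zero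
      fun h => hpδ (by rw [h]; exact dvd_zero _))) h h3
    have h5 := hs_odd v h2 hj (c := f (emK (p * δ))) (by rw [EQ1.d4_hval]; exact PID.val_mul hv hpδ) h4
    rcases (by omega : z = 0 ∨ z = 1) with rfl | rfl
    · rw [Nat.cast_zero, mul_zero]
      rcases h5 with h5 | h5
      · have h6 := sq_even hp hP hv hm 0
        rw [mul_zero] at h6
        exact h6.1 h5
      · exfalso
        have e : f (emK (p * δ)) * f (emK (p ^ 0 * m)) = f (emK (p ^ 1 * (m * δ))) := by
          rw [← map_mul, ← map_mul]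
          congr 2
          ring
        rw [e] at h5
        exact not_sq hp hP hv hmδ odd_one h5
    · rw [Nat.cast_one, mul_one, hq4, ← hsum, ← PI.sy_mul hp hP hm hpδ]
      rcases h5 with h5 | h5
      · exact absurd h5 (not_sq hp hP hv hm odd_one)
      · have e : f (emK (p * δ)) * f (emK (p ^ 1 * m)) = f (emK (p ^ (2 * 1) * (m * δ))) := by
          rw [← map_mul, ← map_mul]
          congr 2
          ring
        rw [e] at h5
        exact (sq_even hp hP hv hmδ 1).1 h5
  · intro h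
    rcases (by omega : z = 0 ∨ z = 1) with rfl | rfl
    · rw [Nat.cast_zero, mul_zero] at h
      left
      have h6 := sq_even hp hP hv hm 0
      rw [mul_zero] at h6
      exact h6.2 h
    · rw [Nat.cast_one, mul_one, hq4, ← hsum, ← PI.sy_mul hp hP hm hpδ] at h
      apply hpt
      have h7 := (sq_iff hp hP hv hmδ).2 h
      have e : f (emK (p ^ 1 * m)) * (f (emK p) * e0) * f (emK δ) ^ 2 = f (emK (m * δ)) * (f (emK δ) * e0) * f (emK p) ^ 2 := by
        rw [pow_one, map_mul, map_mul, map_mul, map_mul]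
        ring
      rw [← PID.d14d_sq hδ0, e]
      exact (PID.d14d_sq hp0).2 (h7.mul he1)

end

end XS
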