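import Pool.Agent.XS.A8
import Pool.Agent.XS.A9
import Pool.Agent.EQT.D1
import Pool.Agent.EQT.D4
import Pool.Agent.QT.D14e
import Pool.Agent.QTS.C1
import Pool.Agent.EQ1.D6s

set_option autoImplicit false

open NumberField IsDedekindDomain
open scoped Classical

/-!
# [XS-A10] the local conditions for all `D`
-/

namespace XS

open PI (Gi KI eG emK la la_prime pl ii sy Prim)
open QT QTD

/-- the indicator function of `T` -/
noncomputable def ind (S T : Finset Gi) : S → ZMod 2 := fun q => if (q : Gi) ∈ T then 1 else 0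

theorem sum_ind {S T : Finset Gi} (hT : T ⊆ S) (f : Gi → ZMod 2) : ∑ q : S, ind S T q * f q = ∑ q ∈ T, f q := by
  unfold ind
  rw [Finset.sum_coe_sort S (fun q => (if q ∈ T then (1 : ZMod 2) else 0) * f q)]
  have h1 : ∀ q ∈ S, (if q ∈ T then (1 : ZMod 2) else 0) * f q = if q ∈ T then f q else 0 := by
    intro q _
    split_ifs
    · rw [one_mul]
    · rw [zero_mul]
  rw [Finset.sum_congr rfl h1, ← Finset.sum_filter, Finset.filter_mem_eq_inter, Finset.inter_eq_right.2 hT]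

section
variable {s t : ℕ} {S T : Finset Gi} {a : Gi → ℕ}

/-- the candidate -/
noncomputable def can (x y : ℕ) (T : Finset Gi) : Gi := ii ^ x * la ^ y * ∏ q ∈ T, q

/-- the candidate at `p` -/
theorem can_split (hS : ∀ p ∈ S, Prime p ∧ Prim p) (hT : T ⊆ S) (x y : ℕ) (p : S) :
    ∃ m : Gi, can x y T = (p : Gi) ^ (if (p : Gi) ∈ T then 1 else 0) * m ∧ ¬ (p : Gi) ∣ m ∧
      sy m p = eJ S ![(x : ZMod 2), (y : ZMod 2)] (ind S T) p := by
  obtain ⟨hp, hP⟩ := hS p p.2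
  have hii : ¬ (p : Gi) ∣ ii := PID.not_dvd_ii hp
  have hla : ¬ (p : Gi) ∣ la := PID.not_dvd_la hp hP
  have h1 : ∀ q ∈ T.erase (p : Gi), ¬ (p : Gi) ∣ q := by
    intro q hq
    obtain ⟨hne, hqT⟩ := Finset.mem_erase.1 hq
    exact PID.not_dvd_of_ne hp hP (hS q (hT hqT)).1 (hS q (hT hqT)).2 (Ne.symm hne)
  have h2 : ¬ (p : Gi) ∣ ∏ q ∈ T.erase (p : Gi), q := by
    intro h
    obtain ⟨q, hq, h3⟩ := (hp.dvd_finsetProd_iff (S := T.erase (p : Gi)) (fun q => q)).1 h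
    exact h1 q hq h3
  have hx : ¬ (p : Gi) ∣ ii ^ x := fun h => hii (hp.dvd_of_dvd_pow h)
  have hy : ¬ (p : Gi) ∣ la ^ y := fun h => hla (hp.dvd_of_dvd_pow h)
  have hxy : ¬ (p : Gi) ∣ ii ^ x * la ^ y := fun h => (hp.dvd_or_dvd h).elim hx hy
  refine ⟨ii ^ x * la ^ y * ∏ q ∈ T.erase (p : Gi), q, ?_, ?_, ?_⟩
  · unfold can
    split_ifs with h
    · rw [← Finset.mul_prod_erase T (fun q => q) h]
      ring
    · rw [Finset.erase_eq_of_notMem h, pow_zero, one_mul]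
  · exact fun h => (hp.dvd_or_dvd h).elim hxy h2
  · rw [PI.sy_mul hp hP hxy h2, PI.sy_mul hp hP hx hy, PID.d14d_pow ii x hp hP hii, PID.d14d_pow la y hp hP hla,
      PI.sy_prod _ _ hp hP h1]
    unfold eJ
    rw [sum_ind hT (fun q => sy q p)]
    show (x : ZMod 2) * sy ii p + (y : ZMod 2) * sy la p + _ = (x : ZMod 2) * sy ii p + (y : ZMod 2) * sy la p + _
    congr 1
    by_cases h : (p : Gi) ∈ T
    · rw [← Finset.add_sum_erase T (fun q => sy q p) h, PI.sy_self, zero_add]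
    · rw [Finset.erase_eq_of_notMem h]

/-- `D = p² cof` -/
theorem Dd_cof (hS : ∀ p ∈ S, Prime p ∧ Prim p) (p : S) (h2 : a p = 2) :
    Dd s t S a = (p : Gi) ^ 2 * cof s t S a p ∧ ¬ (p : Gi) ∣ cof s t S a p ∧ sy (cof s t S a p) p = LM s t S a p p := by
  obtain ⟨D', hD, hpD', hsD⟩ := Dd_split (s := s) (t := t) (a := a) hS p
  have e1 : Dd s t S a = (p : Gi) ^ 2 * cof s t S a p := by
    unfold Dd cof
    rw [← Finset.mul_prod_erase S (fun q => st q ^ a q) p.2, h2]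
    obtain ⟨e, he, h1⟩ := QTD.st_eq (p : Gi)
    have he2 : e ^ 2 = 1 := by
      rcases he with rfl | rfl <;> ring
    rw [h1, mul_pow, he2]
    ring
  have e2 : D' = cof s t S a p := by
    rw [h2] at hD
    rw [hD] at e1
    exact mul_left_cancel₀ (pow_ne_zero 2 (hS p p.2).1.ne_zero) e1
  rw [← e2]
  refine ⟨by rw [hD, h2], hpD', ?_⟩
  rw [hsD]
  unfold LM
  rw [if_pos rfl]

theorem can_split' (hS : ∀ p ∈ S, Prime p ∧ Prim p) (hT : T ⊆ S) (x y : ℕ) (p : S) :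
    ∃ (m : Gi) (k : ℕ), k ≤ 1 ∧ (k : ZMod 2) = ind S T p ∧ can x y T = (p : Gi) ^ k * m ∧ ¬ (p : Gi) ∣ m ∧
      sy m p = eJ S ![(x : ZMod 2), (y : ZMod 2)] (ind S T) p := by
  obtain ⟨m, hm1, hm2, hm3⟩ := can_split hS hT x y p
  refine ⟨m, if (p : Gi) ∈ T then 1 else 0, ?_, ?_, hm1, hm2, hm3⟩
  · by_cases h : (p : Gi) ∈ T
    · rw [if_pos h]
    · rw [if_neg h]
      exact Nat.zero_le 1
  · unfold ind
    by_cases h : (p : Gi) ∈ T
    · rw [if_pos h, if_pos h]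
      exact Nat.cast_one
    · rw [if_neg h, if_neg h]
      exact Nat.cast_zero

/-- **[XS-A10a]** the condition at `p ∈ S` -/
theorem loc_p (h : Adm s t S a) (hT : T ⊆ S) (x y : ℕ) (p : S) {v : HeightOneSpectrum (𝓞 KI)}
    (hv : v.asIdeal = Ideal.span {eG (p : Gi)}) :
    LocB (emK (Dd s t S a)) (emK (can x y T)) (v.adicCompletion KI) ↔
      LocJ s t S a ![(x : ZMod 2), (y : ZMod 2)] (ind S T) p := by
  obtain ⟨hp, hP⟩ := h.1 p p.2
  obtain ⟨m, k, hk, hc, hm1, hm2, hm3⟩ := can_split' h.1 hT x y p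
  have hodd : Odd (a p) → (LocB (emK (Dd s t S a)) (emK (can x y T)) (v.adicCompletion KI) ↔
      eJ S ![(x : ZMod 2), (y : ZMod 2)] (ind S T) p = LM s t S a p p * ind S T p) := by
    intro ho
    obtain ⟨D', hD, hpD', hsD⟩ := Dd_split (s := s) (t := t) (a := a) h.1 p
    rw [hm1, hD, loc_odd hp hP hv hpD' hm2 ho hk, hm3, hc, hsD]
    unfold LM
    rw [if_pos rfl]
  by_cases h1 : a p = 2
  · have e0 : LocJ s t S a ![(x : ZMod 2), (y : ZMod 2)] (ind S T) p ↔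
        if LM s t S a p p = 1 then ind S T p = 0 else
          eJ S ![(x : ZMod 2), (y : ZMod 2)] (ind S T) p = q4 p (cof s t S a p) * ind S T p := by
      unfold LocJ
      rw [if_pos h1]
    obtain ⟨e1, e2, e3⟩ := Dd_cof (s := s) (t := t) h.1 p h1
    rw [e0, e1, hm1]
    by_cases h2 : LM s t S a p p = 1
    · rw [if_pos h2, loc_ns hp hP hv e2 hm2 (by rw [e3]; exact h2) hk, ← hc]
      rcases (by omega : k = 0 ∨ k = 1) with rfl | rfl
      · exact ⟨fun _ => rfl, fun _ => rfl⟩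
      · exact ⟨fun h => absurd h (by norm_num), fun h => absurd h (by decide)⟩
    · have h3 : LM s t S a p p = 0 := by
        rcases (by decide : ∀ x : ZMod 2, x = 0 ∨ x = 1) (LM s t S a p p) with h3 | h3
        · exact h3
        · exact absurd h3 h2
      rw [if_neg h2, loc_sp hp hP hv e2 hm2 (by rw [e3]; exact h3) hk, hm3, hc]
  · have e0 : LocJ s t S a ![(x : ZMod 2), (y : ZMod 2)] (ind S T) p ↔
        eJ S ![(x : ZMod 2), (y : ZMod 2)] (ind S T) p = LM s t S a p p * ind S T p := by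
      unfold LocJ
      rw [if_neg h1]
    rw [e0]
    apply hodd
    rcases h.2.1 p p.2 with h2 | h2 | h2
    · rw [h2]
      exact odd_one
    · exact absurd h2 h1
    · rw [h2]
      exact ⟨1, rfl⟩

/-- **[XS-A10b]** the condition at `1 + i` -/
theorem loc_l (h : Adm s t S a) (hT : T ⊆ S) {x y : ℕ} (hx : x ≤ 1) (hy : y ≤ 1) {v : HeightOneSpectrum (𝓞 KI)}
    (hv : v.asIdeal = Ideal.span {eG la}) :
    LocB (emK (Dd s t S a)) (emK (can x y T)) (v.adicCompletion KI) ↔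
      (![(x : ZMod 2), (y : ZMod 2)], ![∑ j : S, ind S T j * sy ii j, ∑ j : S, ind S T j * sy la j]) ∈
        qloc.W s t (bD S a) (gD S a) (∏ p ∈ S, st p ^ a p) := by
  have hu := cl_ud h.1 a
  have hn := cl_prod (S := T) (f := st) (β := fun p => sy ii p) (γ := fun p => sy la p)
    (fun p hp => cl_st (h.1 p (hT hp)).1 (h.1 p (hT hp)).2)
  have h1 := loc_la h.2.2.1 h.2.2.2 hu hn hx hy hv
  rw [sum_ind hT (fun q => sy ii q), sum_ind hT (fun q => sy la q)]
  have h2 : (![(x : ZMod 2), (y : ZMod 2)], ![∑ q ∈ T, sy ii q, ∑ q ∈ T, sy la q]) ∈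
      qloc.W s t (bD S a) (gD S a) (∏ p ∈ S, st p ^ a p) ↔
      (kd s t (bD S a) (gD S a) (∏ p ∈ S, st p ^ a p)).P (x : ZMod 2) (y : ZMod 2) (∑ q ∈ T, sy ii q) (∑ q ∈ T, sy la q) :=
    Iff.rfl
  rw [h2, ← h1]
  unfold Dd can
  obtain ⟨e, he, h3⟩ := EQT.prod_st T
  rw [h3]
  rcases he with rfl | rfl
  · rw [one_mul]
  · have e2 : ii ^ x * la ^ y * (-1 * ∏ q ∈ T, st q) = -(ii ^ x * la ^ y * ∏ q ∈ T, st q) := by ring
    rw [e2, map_neg]
    exact EQT.locB_neg PID.emK_ii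

end

end XS
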