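import Pool.Agent.XS.A10

set_option autoImplicit false

open NumberField IsDedekindDomain
open scoped Classical

/-!
# [XS-A11] the Selmer group of `1 + i` of `y² = x³ - D x` for all `D`
-/

namespace XS

open PI (Gi KI eG emK la la_prime pl ii sy Prim)
open QT QTD

section
variable {s t : ℕ} {S T : Finset Gi} {a : Gi → ℕ}

theorem can_ne (hS : ∀ p ∈ S, Prime p ∧ Prim p) (hT : T ⊆ S) (x y : ℕ) : emK (can x y T) ≠ 0 :=
  form_ne (Finset.prod_ne_zero_iff.2 fun p hp => (hS p (hT hp)).1.ne_zero)

theorem can_not_dvd (hS : ∀ p ∈ S, Prime p ∧ Prim p) (hT : T ⊆ S) (x y : ℕ) {b : Gi} (hb : Prime b) (hB : Prim b)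
    (hbS : b ∉ S) : ¬ b ∣ can x y T := by
  intro h
  unfold can at h
  rcases hb.dvd_or_dvd h with h1 | h1
  · rcases hb.dvd_or_dvd h1 with h2 | h2
    · exact PID.not_dvd_ii hb (hb.dvd_of_dvd_pow h2)
    · exact PID.not_dvd_la hb hB (hb.dvd_of_dvd_pow h2)
  · exact PID.not_dvd_prod hb hB T (fun q hq => hS q (hT hq)) (fun h2 => hbS (hT h2)) h1

/-- **[XS-A11a]** all places -/
theorem locs (h : Adm s t S a) (hT : T ⊆ S) {x y : ℕ} (hx : x ≤ 1) (hy : y ≤ 1) :
    (∀ v : HeightOneSpectrum (𝓞 KI), LocB (emK (Dd s t S a)) (emK (can x y T)) (v.adicCompletion KI)) ↔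
      (∀ j : S, LocJ s t S a ![(x : ZMod 2), (y : ZMod 2)] (ind S T) j) ∧
      (![(x : ZMod 2), (y : ZMod 2)], ![∑ j : S, ind S T j * sy ii j, ∑ j : S, ind S T j * sy la j]) ∈
        qloc.W s t (bD S a) (gD S a) (∏ p ∈ S, st p ^ a p) := by
  constructor
  · intro hv
    refine ⟨fun j => ?_, ?_⟩
    · exact (loc_p h hT x y j (v := pl (j : Gi) (h.1 j j.2).1) rfl).1 (hv _)
    · exact (loc_l h hT hx hy (v := vla) vla_as).1 (hv _)
  · rintro ⟨h1, h2⟩ v
    rcases PI.gen_cases (v := v) with hv | ⟨b, hb, hB, hv⟩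
    · exact (loc_l h hT hx hy hv).2 h2
    · by_cases hbS : b ∈ S
      · exact (loc_p h hT x y ⟨b, hbS⟩ hv).2 (h1 ⟨b, hbS⟩)
      · exact EQT.locB_good hb hB hv _ _ (QTS.Dd_not h hb hB hbS) (can_not_dvd h.1 hT x y hb hB hbS)

theorem sq_can (hS : ∀ p ∈ S, Prime p ∧ Prim p) (hT : T ⊆ S) {x y : ℕ} (hx : x ≤ 1) (hy : y ≤ 1) :
    IsSquare (emK (can x y T)) ↔ x = 0 ∧ y = 0 ∧ T = ∅ := by
  constructor
  · intro h
    exact EQ1.form_sq hx hy T (fun p hp => hS p (hT hp)) h
  · rintro ⟨rfl, rfl, rfl⟩
    unfold can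
    rw [pow_zero, pow_zero, one_mul, one_mul, Finset.prod_empty, map_one]
    exact IsSquare.one

theorem sq_Dcan (h : Adm s t S a) (hT : T ⊆ S) {x y : ℕ} :
    IsSquare (emK (Dd s t S a) * emK (can x y T)) ↔ (s + x) % 2 = 0 ∧ (t + y) % 2 = 0 ∧ T = S.filter fun p => Odd (a p) := by
  constructor
  · intro hsq
    have hTe : T = S.filter fun p => Odd (a p) := by
      ext p
      rw [Finset.mem_filter]
      have key : ∀ hp : p ∈ S, (p ∈ T ↔ Odd (a p)) := by
        intro hpS
        obtain ⟨hp, hP⟩ := h.1 p hpS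
        obtain ⟨m, k, hk, hc, hm1, hm2, hm3⟩ := can_split' h.1 hT x y ⟨p, hpS⟩
        obtain ⟨D', hD, hpD', hsD⟩ := Dd_split (s := s) (t := t) (a := a) h.1 ⟨p, hpS⟩
        have hDm : ¬ p ∣ D' * m := fun h => (hp.dvd_or_dvd h).elim hpD' hm2
        have e : emK (Dd s t S a) * emK (can x y T) = emK (p ^ (a p + k) * (D' * m)) := by
          rw [hm1, hD, ← map_mul]
          congr 1
          show p ^ a p * D' * (p ^ k * m) = _
          rw [pow_add]
          ring
        have h1 : ¬ Odd (a p + k) := by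
          intro ho
          refine not_sq hp hP (v := pl p hp) rfl hDm ho ?_
          rw [← e]
          obtain ⟨r, hr⟩ := hsq
          rw [hr, map_mul]
          exact ⟨_, rfl⟩
        have h2 : p ∈ T ↔ k = 1 := by
          have h3 : ind S T ⟨p, hpS⟩ = if p ∈ T then 1 else 0 := rfl
          rw [h3] at hc
          rcases (by omega : k = 0 ∨ k = 1) with rfl | rfl
          · constructor
            · intro h4
              rw [if_pos h4] at hc
              exact absurd hc (by decide)
            · intro h4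
              exact absurd h4 (by norm_num)
          · constructor
            · intro _
              rfl
            · intro _
              by_contra h4
              rw [if_neg h4] at hc
              exact absurd hc (by decide)
        rw [h2]
        rw [Nat.not_odd_iff_even, Nat.even_add] at h1
        rcases (by omega : k = 0 ∨ k = 1) with rfl | rfl
        · constructor
          · intro h4
            exact absurd h4 (by norm_num)
          · intro h4
            exact absurd (h1.2 ⟨0, rfl⟩) (Nat.not_even_iff_odd.2 h4)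
        · constructor
          · intro _
            rw [← Nat.not_even_iff_odd]
            intro h4
            exact absurd (h1.1 h4) (by decide)
          · intro _
            rfl
      constructor
      · intro hp
        exact ⟨hT hp, (key (hT hp)).1 hp⟩
      · rintro ⟨hp, ho⟩
        exact (key hp).2 ho
    subst hTe
    obtain ⟨r, hr, h2⟩ := Dd_mul (s := s) (t := t) h.1 x y (subset_refl (S.filter fun p => Odd (a p)))
    rw [Finset.sdiff_self, Finset.prod_empty, mul_one] at h2
    unfold can at hsq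
    rw [← map_mul, h2, map_mul, map_pow] at hsq
    have h3 : IsSquare (emK (ii ^ ((s + x) % 2) * la ^ ((t + y) % 2) * ∏ q ∈ (∅ : Finset Gi), q)) := by
      rw [Finset.prod_empty, mul_one]
      exact (PID.d14d_sq (PID.emK_ne hr)).1 hsq
    obtain ⟨h4, h5, -⟩ := EQ1.form_sq (by omega) (by omega) ∅ (fun p hp => absurd hp (Finset.notMem_empty p)) h3
    exact ⟨h4, h5, rfl⟩
  · rintro ⟨h1, h2, rfl⟩
    obtain ⟨r, hr, h3⟩ := Dd_mul (s := s) (t := t) h.1 x y (subset_refl (S.filter fun p => Odd (a p)))
    rw [Finset.sdiff_self, Finset.prod_empty, mul_one, h1, h2, pow_zero, pow_zero, one_mul, one_mul] at h3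
    unfold can
    rw [← map_mul, h3, map_pow, pow_two]
    exact ⟨_, rfl⟩

theorem cast_inj2 {m n : ℕ} : ((m : ZMod 2) = (n : ZMod 2)) ↔ (m + n) % 2 = 0 := by
  rw [ZMod.natCast_eq_natCast_iff']
  omega

/-- **[XS-A11]** **The Selmer group of `1 + i` for all `D`.** For every `D = i^s (1+i)^t ∏ (p*)^(a p)` the Selmer group of the isogeny `1 + i` of
`y² = x³ - D x` over `ℚ(i)` is generated by the class of `D` if and only if the explicit condition `MinAll qloc` holds. -/
theorem sel_iff_min (h : Adm s t S a) : SelTriv KI (emK (Dd s t S a)) ↔ MinAll qloc s t S a := by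
  constructor
  · intro hsel y z hJ hW
    obtain ⟨x0, hx0, e0⟩ := exists_nat (y 0)
    obtain ⟨y0, hy0, e1⟩ := exists_nat (y 1)
    have ey : y = ![(x0 : ZMod 2), (y0 : ZMod 2)] := by
      funext i
      fin_cases i
      · exact e0.symm
      · exact e1.symm
    let T : Finset Gi := S.filter fun p => ∃ hp : p ∈ S, z ⟨p, hp⟩ = 1
    have hT : T ⊆ S := Finset.filter_subset _ _
    have ez : z = ind S T := by
      funext j
      unfold ind
      have h1 : (j : Gi) ∈ T ↔ z j = 1 := by
        simp only [T, Finset.mem_filter]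
        constructor
        · rintro ⟨_, _, h1⟩
          exact h1
        · intro h1
          exact ⟨j.2, j.2, h1⟩
      rcases (by decide : ∀ x : ZMod 2, x = 0 ∨ x = 1) (z j) with h2 | h2
      · have h3 : ¬ (j : Gi) ∈ T := by
          intro h4
          have h5 := h1.1 h4
          rw [h2] at h5
          exact absurd h5 (by decide)
        rw [if_neg h3, h2]
      · rw [if_pos (h1.2 h2), h2]
    rw [ey, ez] at hJ hW
    have h1 := (locs h hT hx0 hy0).2 ⟨hJ, hW⟩
    rcases hsel _ (can_ne h.1 hT x0 y0) h1 with h2 | h2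
    · obtain ⟨rfl, rfl, h3⟩ := (sq_can h.1 hT hx0 hy0).1 h2
      refine ⟨0, ?_, fun j => ?_⟩
      · rw [ey, zero_mul, zero_mul]
        rfl
      · rw [ez, zero_mul, h3]
        unfold ind
        rw [if_neg (Finset.notMem_empty _)]
    · obtain ⟨h3, h4, h5⟩ := (sq_Dcan h hT).1 h2
      refine ⟨1, ?_, fun j => ?_⟩
      · rw [ey, one_mul, one_mul, cast_inj2.2 (by omega : (x0 + s) % 2 = 0), cast_inj2.2 (by omega : (y0 + t) % 2 = 0)]
      · rw [ez, one_mul, h5]
        unfold ind
        by_cases h6 : Odd (a j)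
        · rw [if_pos (Finset.mem_filter.2 ⟨j.2, h6⟩), cast_odd h6]
        · have h8 : ¬ (j : Gi) ∈ S.filter (fun p => Odd (a p)) := fun h7 => h6 (Finset.mem_filter.1 h7).2
          rw [if_neg h8, cast_even h6]
  · intro hmin b hb hloc
    obtain ⟨x, y, T, r, hx, hy, hT, hr, hbe⟩ := PID.exists_form S h.1 b hb
      (fun v h1 h2 => val_b_sq (PID.emK_ne (Dd_ne h.1)) v (val_d_one h.1 v h1 h2) (hloc v))
    have hL : ∀ v : HeightOneSpectrum (𝓞 KI), LocB (emK (Dd s t S a)) (emK (can x y T)) (v.adicCompletion KI) := by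
      intro v
      have h1 := hloc v
      rw [hbe] at h1
      exact (locB_sq hr).1 h1
    obtain ⟨hJ, hW⟩ := (locs h hT hx hy).1 hL
    obtain ⟨c, hc1, hc2⟩ := hmin _ _ hJ hW
    have c0 : (x : ZMod 2) = c * s := congrFun hc1 0
    have c1 : (y : ZMod 2) = c * t := congrFun hc1 1
    rcases (by decide : ∀ x : ZMod 2, x = 0 ∨ x = 1) c with rfl | rfl
    · left
      rw [zero_mul] at c0 c1
      have hx0 : x = 0 := by
        have h1 : (x : ZMod 2) = ((0 : ℕ) : ZMod 2) := by rw [c0, Nat.cast_zero]
        have := cast_inj2.1 h1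
        omega
      have hy0 : y = 0 := by
        have h1 : (y : ZMod 2) = ((0 : ℕ) : ZMod 2) := by rw [c1, Nat.cast_zero]
        have := cast_inj2.1 h1
        omega
      have hTe : T = ∅ := by
        rw [Finset.eq_empty_iff_forall_notMem]
        intro q hq
        have h1 := hc2 ⟨q, hT hq⟩
        rw [zero_mul] at h1
        unfold ind at h1
        rw [if_pos (show ((⟨q, hT hq⟩ : S) : Gi) ∈ T from hq)] at h1
        exact absurd h1 (by decide)
      have h2 : IsSquare (emK (can x y T)) := (sq_can h.1 hT hx hy).2 ⟨hx0, hy0, hTe⟩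
      rw [hbe]
      unfold can at h2
      exact (PID.d14d_sq hr).2 h2
    · right
      rw [one_mul] at c0 c1
      have h1 := cast_inj2.1 c0
      have h2 := cast_inj2.1 c1
      have hTe : T = S.filter fun p => Odd (a p) := by
        ext q
        rw [Finset.mem_filter]
        constructor
        · intro hq
          refine ⟨hT hq, ?_⟩
          have h3 := hc2 ⟨q, hT hq⟩
          rw [one_mul] at h3
          unfold ind at h3
          rw [if_pos (show ((⟨q, hT hq⟩ : S) : Gi) ∈ T from hq)] at h3
          by_contra h4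
          have h5 : ((a q : ℕ) : ZMod 2) = 0 := cast_even h4
          have h6 : (1 : ZMod 2) = 0 := h3.trans h5
          exact absurd h6 (by decide)
        · rintro ⟨hq, ho⟩
          have h3 := hc2 ⟨q, hq⟩
          rw [one_mul] at h3
          have h5 : ((a q : ℕ) : ZMod 2) = 1 := cast_odd ho
          by_contra h4
          unfold ind at h3
          rw [if_neg (show ((⟨q, hq⟩ : S) : Gi) ∉ T from h4)] at h3
          have h6 : (0 : ZMod 2) = 1 := h3.trans h5
          exact absurd h6 (by decide)
      have h3 : IsSquare (emK (Dd s t S a) * emK (can x y T)) := (sq_Dcan h hT).2 ⟨by omega, by omega, hTe⟩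
      rw [hbe, ← mul_assoc]
      unfold can at h3
      exact (PID.d14d_sq hr).2 h3

end

end XS
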