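import Pool.Agent.XS.A1
import Pool.Agent.QT.D14a
import Pool.Agent.EQ1.D5

set_option autoImplicit false

open NumberField IsDedekindDomain
open scoped Classical

/-!
# [XS-A2] from a solution in the completion at `1 + i` to a congruence
-/

namespace XS

open PI (Gi KI eG emK la la_prime pl ii sy Prim la_dvd_iff)
open QTD

/-- the completion at `1 + i` -/
abbrev Kv := vla.adicCompletion KI

theorem fv_val (c : Gi) : Valued.v (EQ1.d5_f vla c) = vla.valuation KI (emK c) := d13_val (v := vla) (emK c)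

theorem fv_la : Valued.v (EQ1.d5_f vla la) = (WithZero.exp (-1) : WithZero (Multiplicative ℤ)) := by
  rw [fv_val]
  exact PID.val_self vla_as

theorem fv_le (c : Gi) : Valued.v (EQ1.d5_f vla c) ≤ (1 : WithZero (Multiplicative ℤ)) := by
  rw [fv_val]
  exact PID.val_le_one vla c

theorem lt_one_le {x : Kv} (h : Valued.v x < (1 : WithZero (Multiplicative ℤ))) :
    Valued.v x ≤ (WithZero.exp (-1) : WithZero (Multiplicative ℤ)) := by
  by_cases hx : x = 0
  · rw [hx, map_zero]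
    exact zero_le
  · obtain ⟨n, hn⟩ := PID.d13a_exists (Valued.v (R := Kv)) hx
    have hn' : Valued.v x = (WithZero.exp n : WithZero (Multiplicative ℤ)) := hn
    rw [hn'] at h ⊢
    rw [← WithZero.exp_zero, WithZero.exp_lt_exp] at h
    rw [WithZero.exp_le_exp]
    omega

/-- division by `1 + i` -/
theorem exists_la {x : Kv} (h : Valued.v x < (1 : WithZero (Multiplicative ℤ))) :
    ∃ y : Kv, Valued.v y ≤ (1 : WithZero (Multiplicative ℤ)) ∧ x = EQ1.d5_f vla la * y := by
  have hl := EQ1.d5_la0 vla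
  refine ⟨x / EQ1.d5_f vla la, ?_, by field_simp⟩
  rw [map_div₀, fv_la]
  have h1 := lt_one_le h
  calc Valued.v x / WithZero.exp (-1) ≤ WithZero.exp (-1) / WithZero.exp (-1) := by
        gcongr
        exact zero_le
    _ = 1 := div_self WithZero.exp_ne_zero

/-- **[XS-A2a]** approximation by elements of `ℤ[i]` -/
theorem approx (n : ℕ) : ∀ x : Kv, Valued.v x ≤ (1 : WithZero (Multiplicative ℤ)) →
    ∃ (c : Gi) (y : Kv), Valued.v y ≤ (1 : WithZero (Multiplicative ℤ)) ∧ x = EQ1.d5_f vla c + EQ1.d5_f vla la ^ n * y := by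
  induction n with
  | zero =>
    intro x hx
    exact ⟨0, x, hx, by rw [map_zero, zero_add, pow_zero, one_mul]⟩
  | succ n ih =>
    intro x hx
    obtain ⟨c0, y0, hy0, h0⟩ : ∃ (c0 : Gi) (y0 : Kv), Valued.v y0 ≤ (1 : WithZero (Multiplicative ℤ)) ∧
        x = EQ1.d5_f vla c0 + EQ1.d5_f vla la * y0 := by
      rcases lt_or_eq_of_le hx with h | h
      · obtain ⟨y, hy, h1⟩ := exists_la h
        exact ⟨0, y, hy, by rw [map_zero, zero_add]; exact h1⟩
      · obtain ⟨y, hy, h1⟩ := exists_la (PID.res_two vla vla_card x h)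
        exact ⟨1, y, hy, by rw [map_one, ← h1]; ring⟩
    obtain ⟨c1, y1, hy1, h1⟩ := ih y0 hy0
    refine ⟨c0 + la * c1, y1, hy1, ?_⟩
    rw [h0, h1, map_add, map_mul]
    ring

/-- scaling: three elements, one of them a unit -/
theorem scale (u v w : Kv) (hw : w ≠ 0) : ∃ s : Kv, s ≠ 0 ∧
    Valued.v (s * u) ≤ (1 : WithZero (Multiplicative ℤ)) ∧ Valued.v (s * v) ≤ (1 : WithZero (Multiplicative ℤ)) ∧
    Valued.v (s * w) ≤ (1 : WithZero (Multiplicative ℤ)) ∧
    (Valued.v (s * u) = (1 : WithZero (Multiplicative ℤ)) ∨ Valued.v (s * v) = (1 : WithZero (Multiplicative ℤ)) ∨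
      Valued.v (s * w) = (1 : WithZero (Multiplicative ℤ))) := by
  have key : ∀ a b c : Kv, a ≠ 0 → Valued.v b ≤ (Valued.v a : WithZero (Multiplicative ℤ)) →
      Valued.v c ≤ (Valued.v a : WithZero (Multiplicative ℤ)) →
      Valued.v (a⁻¹ * b) ≤ (1 : WithZero (Multiplicative ℤ)) ∧ Valued.v (a⁻¹ * c) ≤ (1 : WithZero (Multiplicative ℤ)) ∧
      Valued.v (a⁻¹ * a) = (1 : WithZero (Multiplicative ℤ)) := by
    intro a b c ha h1 h2
    have ha' : 0 < (Valued.v a : WithZero (Multiplicative ℤ)) := zero_lt_iff.2 ((Valuation.ne_zero_iff _).2 ha)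
    refine ⟨?_, ?_, ?_⟩
    · rw [map_mul, map_inv₀, inv_mul_le_iff₀ ha', mul_one]
      exact h1
    · rw [map_mul, map_inv₀, inv_mul_le_iff₀ ha', mul_one]
      exact h2
    · rw [inv_mul_cancel₀ ha, map_one]
  have hne : ∀ a b : Kv, b ≠ 0 → Valued.v b ≤ (Valued.v a : WithZero (Multiplicative ℤ)) → a ≠ 0 := by
    rintro a b hb h rfl
    rw [map_zero] at h
    exact (Valuation.ne_zero_iff _).2 hb (le_antisymm h zero_le)
  rcases le_total (Valued.v u : WithZero (Multiplicative ℤ)) (Valued.v v) with h1 | h1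
  · rcases le_total (Valued.v v : WithZero (Multiplicative ℤ)) (Valued.v w) with h2 | h2
    · obtain ⟨a1, a2, a3⟩ := key w u v hw (h1.trans h2) h2
      exact ⟨w⁻¹, inv_ne_zero hw, a1, a2, a3.le, Or.inr (Or.inr a3)⟩
    · have hv := hne v w hw h2
      obtain ⟨a1, a2, a3⟩ := key v u w hv h1 h2
      exact ⟨v⁻¹, inv_ne_zero hv, a1, a3.le, a2, Or.inr (Or.inl a3)⟩
  · rcases le_total (Valued.v u : WithZero (Multiplicative ℤ)) (Valued.v w) with h2 | h2
    · obtain ⟨a1, a2, a3⟩ := key w u v hw h2 (h1.trans h2)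
      exact ⟨w⁻¹, inv_ne_zero hw, a1, a2, a3.le, Or.inr (Or.inr a3)⟩
    · have hu := hne u w hw h2
      obtain ⟨a1, a2, a3⟩ := key u v w hu h1 h2
      exact ⟨u⁻¹, inv_ne_zero hu, a3.le, a1, a2, Or.inl a3⟩

/-- an integral element of `ℤ[i]` -/
theorem dvd_of_eq {a : Gi} {n : ℕ} {y : Kv} (hy : Valued.v y ≤ (1 : WithZero (Multiplicative ℤ)))
    (h : EQ1.d5_f vla a = EQ1.d5_f vla la ^ n * y) : la ^ n ∣ a := by
  rw [← PID.val_le_pow_iff vla_as a n, ← fv_val, h, map_mul, map_pow, fv_la, PID.d13a_pow]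
  calc (WithZero.exp ((n : ℤ) * -1) : WithZero (Multiplicative ℤ)) * Valued.v y ≤ WithZero.exp ((n : ℤ) * -1) * 1 := by
        gcongr
    _ = WithZero.exp (-(n : ℤ)) := by
        rw [mul_one]
        congr 1
        ring

/-- **[XS-A2]** a solution in the completion gives a primitive solution modulo `(1 + i)^6` -/
theorem hs_int {b c : Gi} (h : Hs (EQ1.d5_f vla b) (EQ1.d5_f vla c)) :
    ∃ U V W : Gi, (¬ la ∣ U ∨ ¬ la ∣ V ∨ ¬ la ∣ W) ∧ la ^ 6 ∣ b * W ^ 2 + c * V ^ 2 - U ^ 2 := by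
  obtain ⟨u, v, w, hw, h⟩ := h
  obtain ⟨s, hs, hu, hv, hw1, h1⟩ := scale u v w hw
  obtain ⟨U, u', hu', eu⟩ := approx 6 _ hu
  obtain ⟨V, v', hv', ev⟩ := approx 6 _ hv
  obtain ⟨W, w', hw', ew⟩ := approx 6 _ hw1
  have hint : ∀ {A : Gi} {z z' : Kv}, Valued.v z' ≤ (1 : WithZero (Multiplicative ℤ)) →
      z = EQ1.d5_f vla A + EQ1.d5_f vla la ^ 6 * z' → Valued.v z = (1 : WithZero (Multiplicative ℤ)) → ¬ la ∣ A := by
    intro A z z' hz' hz h1 h2
    have h3 : Valued.v (EQ1.d5_f vla A) < (1 : WithZero (Multiplicative ℤ)) := by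
      rw [fv_val]
      exact (PID.val_lt_one_iff vla_as A).2 h2
    have h4 : Valued.v (EQ1.d5_f vla la ^ 6 * z') < (1 : WithZero (Multiplicative ℤ)) := by
      rw [map_mul, map_pow, fv_la, PID.d13a_pow]
      calc (WithZero.exp (((6 : ℕ) : ℤ) * -1) : WithZero (Multiplicative ℤ)) * Valued.v z' ≤ WithZero.exp (((6 : ℕ) : ℤ) * -1) * 1 := by
            gcongr
        _ < 1 := by
            rw [mul_one, ← WithZero.exp_zero, WithZero.exp_lt_exp]
            norm_num
    have h5 := Valuation.map_add_lt _ h3 h4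
    rw [← hz, h1] at h5
    exact lt_irrefl _ h5
  refine ⟨U, V, W, ?_, ?_⟩
  · rcases h1 with h1 | h1 | h1
    · exact Or.inl (hint hu' eu h1)
    · exact Or.inr (Or.inl (hint hv' ev h1))
    · exact Or.inr (Or.inr (hint hw' ew h1))
  · have hU := fv_le U
    have hV := fv_le V
    have hW := fv_le W
    have hb := fv_le b
    have hc := fv_le c
    have hl := fv_le la
    set f := EQ1.d5_f vla with hf
    have e1 : f (b * W ^ 2 + c * V ^ 2 - U ^ 2) = f la ^ 6 * (-(f b * (2 * f W * w' + f la ^ 6 * w' ^ 2)) -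
        f c * (2 * f V * v' + f la ^ 6 * v' ^ 2) + (2 * f U * u' + f la ^ 6 * u' ^ 2)) := by
      rw [map_sub, map_add, map_mul, map_mul, map_pow, map_pow, map_pow]
      have e2 : f b * (s * w) ^ 2 = (s * u) ^ 2 - f c * (s * v) ^ 2 := by linear_combination s ^ 2 * h
      rw [eu, ev, ew] at e2
      linear_combination e2
    refine dvd_of_eq ?_ e1
    have h2 : Valued.v (2 : Kv) ≤ (1 : WithZero (Multiplicative ℤ)) := by
      have := fv_le 2
      rwa [map_ofNat] at this
    have hO : ∀ {x y : Kv}, Valued.v x ≤ (1 : WithZero (Multiplicative ℤ)) → Valued.v y ≤ (1 : WithZero (Multiplicative ℤ)) →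
        Valued.v (x * y) ≤ (1 : WithZero (Multiplicative ℤ)) := by
      intro x y hx hy
      rw [map_mul]
      exact mul_le_one' hx hy
    have hA : ∀ {x y : Kv}, Valued.v x ≤ (1 : WithZero (Multiplicative ℤ)) → Valued.v y ≤ (1 : WithZero (Multiplicative ℤ)) →
        Valued.v (x + y) ≤ (1 : WithZero (Multiplicative ℤ)) := by
      intro x y hx hy
      exact (Valuation.map_add _ _ _).trans (max_le hx hy)
    have hN : ∀ {x : Kv}, Valued.v x ≤ (1 : WithZero (Multiplicative ℤ)) → Valued.v (-x) ≤ (1 : WithZero (Multiplicative ℤ)) := by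
      intro x hx
      rw [Valuation.map_neg]
      exact hx
    have hP : ∀ {x : Kv} (n : ℕ), Valued.v x ≤ (1 : WithZero (Multiplicative ℤ)) → Valued.v (x ^ n) ≤ (1 : WithZero (Multiplicative ℤ)) := by
      intro x n hx
      rw [map_pow]
      exact pow_le_one' hx n
    have hblock : ∀ {F x : Kv}, Valued.v F ≤ (1 : WithZero (Multiplicative ℤ)) → Valued.v x ≤ (1 : WithZero (Multiplicative ℤ)) →
        Valued.v (2 * F * x + f la ^ 6 * x ^ 2) ≤ (1 : WithZero (Multiplicative ℤ)) := fun hF hx =>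
      hA (hO (hO h2 hF) hx) (hO (hP 6 hl) (hP 2 hx))
    rw [sub_eq_add_neg]
    exact hA (hA (hN (hO hb (hblock hW hw'))) (hN (hO hc (hblock hV hv')))) (hblock hU hu')

end XS
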