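import Pool.Agent.XS.A2

set_option autoImplicit false

open NumberField IsDedekindDomain
open scoped Classical

/-!
# [XS-A3] the norm residue symbol at `1 + i`: the finite check
-/

namespace XS

/-- representatives of the four classes modulo `(1 + i)^5` -/
def rp : Fin 2 → Fin 2 → ℤ × ℤ
  | 0, 0 => (1, 0)
  | 0, 1 => (5, 0)
  | 1, 0 => (5, 2)
  | 1, 1 => (1, 2)

/-- the squares modulo `(1 + i)^5` -/
def sq6 : Fin 6 → ℤ × ℤ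
  | 0 => (1, 0)
  | 1 => (-1, 0)
  | 2 => (0, 2)
  | 3 => (0, -2)
  | 4 => (4, 0)
  | 5 => (0, 0)

/-- multiplication -/
def mu (a b : ℤ × ℤ) : ℤ × ℤ := (a.1 * b.1 - a.2 * b.2, a.1 * b.2 + a.2 * b.1)

/-- powers of `i` -/
def iy : Fin 2 → ℤ × ℤ
  | 0 => (1, 0)
  | 1 => (0, 1)

/-- powers of `1 + i` -/
def ly : Fin 2 → ℤ × ℤ
  | 0 => (1, 0)
  | 1 => (1, 1)

/-- divisibility by `(1 + i)^5` -/
def z5 (a : ℤ × ℤ) : Bool := (a.1 - a.2) % 8 == 0 && (a.1 + a.2) % 8 == 0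

def tst (e y y' s0 s1 s0' s1' : Fin 2) (p q k : Fin 6) : Bool :=
  let t := mu (mu (mu (iy y) (ly e)) (rp s0 s1)) (sq6 p)
  let t' := mu (mu (iy y') (rp s0' s1')) (sq6 q)
  let u := sq6 k
  !(z5 (t.1 + t'.1 - u.1, t.2 + t'.2 - u.2)) || (y.1 * s0'.1 + e.1 * s1'.1 + y'.1 * s0.1) % 2 == 0

theorem chk : ∀ (e y y' s0 s1 s0' s1' : Fin 2) (p q k : Fin 6), (p.1 ≤ 1 ∨ q.1 ≤ 1 ∨ k.1 ≤ 1) →
    tst e y y' s0 s1 s0' s1' p q k = true := by decide +kernel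

def tst2 (y y' s0 s1 s0' s1' : Fin 2) (p q k : Fin 6) : Bool :=
  let t := mu (mu (iy y) (rp s0 s1)) (sq6 p)
  let t' := mu (mu (iy y') (rp s0' s1')) (sq6 q)
  let u := mu (1, 1) (sq6 k)
  !(z5 (t.1 + t'.1 - u.1, t.2 + t'.2 - u.2)) || (y.1 * s0'.1 + s1'.1 + y'.1 * s0.1 + s1.1) % 2 == 0

theorem chk2 : ∀ (y y' s0 s1 s0' s1' : Fin 2) (p q k : Fin 6), (p.1 ≤ 1 ∨ q.1 ≤ 1) →
    tst2 y y' s0 s1 s0' s1' p q k = true := by decide +kernel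

end XS
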