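import Pool.Agent.XS.A3

set_option autoImplicit false

open NumberField IsDedekindDomain
open scoped Classical

/-!
# [XS-A4] the norm residue symbol at `1 + i` in terms of the classes
-/

namespace XS

open PI (Gi KI eG emK la la_prime pl ii sy Prim la_dvd_iff)
open QTD

/-- congruent modulo `(1 + i)^5` -/
def E5 (z : Gi) (a : ℤ × ℤ) : Prop := la ^ 5 ∣ z - ⟨a.1, a.2⟩

theorem E5_mul {z w : Gi} {a b : ℤ × ℤ} (h : E5 z a) (h' : E5 w b) : E5 (z * w) (mu a b) := by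
  obtain ⟨x, hx⟩ := h
  obtain ⟨y, hy⟩ := h'
  have e : (⟨(mu a b).1, (mu a b).2⟩ : Gi) = ⟨a.1, a.2⟩ * ⟨b.1, b.2⟩ := by
    apply Zsqrtd.ext
    · rw [PI.s1a_mul_re]
      rfl
    · rw [PI.s1a_mul_im]
      rfl
  refine ⟨x * w + ⟨a.1, a.2⟩ * y, ?_⟩
  rw [e]
  linear_combination w * hx + (⟨a.1, a.2⟩ : Gi) * hy

theorem E5_zero {z w u : Gi} {a b c : ℤ × ℤ} (h : E5 z a) (h' : E5 w b) (h'' : E5 u c) (hz : la ^ 5 ∣ z + w - u) :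
    z5 (a.1 + b.1 - c.1, a.2 + b.2 - c.2) = true := by
  have h1 : la ^ 5 ∣ (⟨a.1 + b.1 - c.1, a.2 + b.2 - c.2⟩ : Gi) := by
    have e : (⟨a.1 + b.1 - c.1, a.2 + b.2 - c.2⟩ : Gi) = (z + w - u) - (z - ⟨a.1, a.2⟩) - (w - ⟨b.1, b.2⟩) + (u - ⟨c.1, c.2⟩) := by
      apply Zsqrtd.ext
      · simp only [Zsqrtd.re_add, Zsqrtd.re_sub]
        ring
      · simp only [Zsqrtd.im_add, Zsqrtd.im_sub]
        ring
    rw [e]
    exact dvd_add (dvd_sub (dvd_sub hz h) h') h''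
  rw [la5_dvd] at h1
  unfold z5
  rw [Bool.and_eq_true, beq_iff_eq, beq_iff_eq]
  exact h1

theorem E5_iy (y : Fin 2) : E5 (ii ^ (y : ℕ)) (iy y) := by
  fin_cases y
  · show la ^ 5 ∣ ii ^ 0 - (⟨1, 0⟩ : Gi)
    have : ii ^ 0 - (⟨1, 0⟩ : Gi) = 0 := by decide
    rw [this]
    exact dvd_zero _
  · show la ^ 5 ∣ ii ^ 1 - (⟨0, 1⟩ : Gi)
    have : ii ^ 1 - (⟨0, 1⟩ : Gi) = 0 := by decide
    rw [this]
    exact dvd_zero _

theorem E5_ly (y : Fin 2) : E5 (la ^ (y : ℕ)) (ly y) := by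
  fin_cases y
  · show la ^ 5 ∣ la ^ 0 - (⟨1, 0⟩ : Gi)
    have : la ^ 0 - (⟨1, 0⟩ : Gi) = 0 := by decide
    rw [this]
    exact dvd_zero _
  · show la ^ 5 ∣ la ^ 1 - (⟨1, 1⟩ : Gi)
    have : la ^ 1 - (⟨1, 1⟩ : Gi) = 0 := by decide
    rw [this]
    exact dvd_zero _

/-- the class as an element of `Fin 2 × Fin 2` -/
theorem E5_cl {n : Gi} {β γ : ZMod 2} (h : cl n β γ) : ∃ s0 s1 : Fin 2, β = ((s0 : ℕ) : ZMod 2) ∧ γ = ((s1 : ℕ) : ZMod 2) ∧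
    E5 n (rp s0 s1) := by
  obtain ⟨h1, h2, h3⟩ := h
  rcases h3 with ⟨rfl, rfl, h3⟩ | ⟨rfl, rfl, h3⟩ | ⟨rfl, rfl, h3⟩ | ⟨rfl, rfl, h3⟩
  · refine ⟨0, 0, rfl, rfl, ?_⟩
    show la ^ 5 ∣ n - (⟨1, 0⟩ : Gi)
    rw [la5_dvd]
    simp only [Zsqrtd.re_sub, Zsqrtd.im_sub]
    omega
  · refine ⟨0, 1, rfl, rfl, ?_⟩
    show la ^ 5 ∣ n - (⟨5, 0⟩ : Gi)
    rw [la5_dvd]
    simp only [Zsqrtd.re_sub, Zsqrtd.im_sub]
    omega
  · refine ⟨1, 0, rfl, rfl, ?_⟩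
    show la ^ 5 ∣ n - (⟨5, 2⟩ : Gi)
    rw [la5_dvd]
    simp only [Zsqrtd.re_sub, Zsqrtd.im_sub]
    omega
  · refine ⟨1, 1, rfl, rfl, ?_⟩
    show la ^ 5 ∣ n - (⟨1, 2⟩ : Gi)
    rw [la5_dvd]
    simp only [Zsqrtd.re_sub, Zsqrtd.im_sub]
    omega

/-- the squares of the elements prime to `1 + i` -/
theorem sq_unit {z : Gi} (h : ¬ la ∣ z) : la ^ 5 ∣ z ^ 2 - 1 ∨ la ^ 5 ∣ z ^ 2 + 1 := by
  rw [la_dvd_iff] at h
  have hre : (z ^ 2).re = z.re * z.re - z.im * z.im := by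
    rw [pow_two, PI.s1a_mul_re]
  have him : (z ^ 2).im = z.re * z.im + z.im * z.re := by
    rw [pow_two, PI.s1a_mul_im]
  rw [la5_dvd, la5_dvd]
  simp only [Zsqrtd.re_sub, Zsqrtd.im_sub, Zsqrtd.re_add, Zsqrtd.im_add, Zsqrtd.re_one, Zsqrtd.im_one, hre, him]
  rcases Int.even_or_odd z.re with ha | ha
  · right
    obtain ⟨k, hk⟩ := ha
    obtain ⟨l, hl⟩ : ∃ l, z.im = 2 * l + 1 := ⟨z.im / 2, by omega⟩
    obtain ⟨m, hm⟩ := Int.even_mul_succ_self k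
    obtain ⟨m', hm'⟩ := Int.even_mul_succ_self l
    rw [hk, hl]
    have e1 : (k + k) * (k + k) - (2 * l + 1) * (2 * l + 1) + 1 - ((k + k) * (2 * l + 1) + (2 * l + 1) * (k + k) + 0) =
        4 * (k * (k + 1)) - 4 * (l * (l + 1)) - 8 * (k * l) - 8 * k := by ring
    have e2 : (k + k) * (k + k) - (2 * l + 1) * (2 * l + 1) + 1 + ((k + k) * (2 * l + 1) + (2 * l + 1) * (k + k) + 0) =
        4 * (k * (k + 1)) - 4 * (l * (l + 1)) + 8 * (k * l) := by ring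
    rw [e1, e2, hm, hm']
    omega
  · left
    obtain ⟨k, hk⟩ := ha
    obtain ⟨l, hl⟩ : ∃ l, z.im = 2 * l := ⟨z.im / 2, by omega⟩
    obtain ⟨m, hm⟩ := Int.even_mul_succ_self k
    obtain ⟨m', hm'⟩ := Int.even_mul_succ_self l
    rw [hk, hl]
    have e1 : (2 * k + 1) * (2 * k + 1) - 2 * l * (2 * l) - 1 - ((2 * k + 1) * (2 * l) + 2 * l * (2 * k + 1) - 0) =
        4 * (k * (k + 1)) - 4 * (l * (l + 1)) - 8 * (k * l) := by ring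
    have e2 : (2 * k + 1) * (2 * k + 1) - 2 * l * (2 * l) - 1 + ((2 * k + 1) * (2 * l) + 2 * l * (2 * k + 1) - 0) =
        4 * (k * (k + 1)) - 4 * (l * (l + 1)) + 8 * (k * l) + 8 * l := by ring
    rw [e1, e2, hm, hm']
    omega

/-- the squares -/
theorem E5_sq (z : Gi) : ∃ p : Fin 6, E5 (z ^ 2) (sq6 p) ∧ (¬ la ∣ z → p.1 ≤ 1) := by
  have e2 : la ^ 2 = (⟨0, 2⟩ : Gi) := by decide
  by_cases h : la ∣ z
  · obtain ⟨z1, rfl⟩ := h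
    by_cases h1 : la ∣ z1
    · obtain ⟨z2, rfl⟩ := h1
      by_cases h2 : la ∣ z2
      · obtain ⟨z3, rfl⟩ := h2
        refine ⟨5, ?_, fun h => absurd (dvd_mul_right _ _) h⟩
        show la ^ 5 ∣ (la * (la * (la * z3))) ^ 2 - (⟨0, 0⟩ : Gi)
        have : (⟨0, 0⟩ : Gi) = 0 := rfl
        rw [this, sub_zero]
        exact ⟨la * z3 ^ 2, by ring⟩
      · refine ⟨4, ?_, fun h => absurd (dvd_mul_right _ _) h⟩
        show la ^ 5 ∣ (la * (la * z2)) ^ 2 - (⟨4, 0⟩ : Gi)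
        have e : (⟨4, 0⟩ : Gi) = -la ^ 4 := by decide
        have e' : (2 : Gi) = -ii * la ^ 2 := by decide
        rw [e]
        rcases sq_unit h2 with ⟨c, hc⟩ | ⟨c, hc⟩
        · refine ⟨la ^ 4 * c - ii * la, ?_⟩
          linear_combination la ^ 4 * hc + la ^ 4 * e'
        · exact ⟨la ^ 4 * c, by linear_combination la ^ 4 * hc⟩
    · rcases sq_unit h1 with ⟨c, hc⟩ | ⟨c, hc⟩
      · refine ⟨2, ?_, fun h => absurd (dvd_mul_right _ _) h⟩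
        show la ^ 5 ∣ (la * z1) ^ 2 - (⟨0, 2⟩ : Gi)
        rw [← e2]
        exact ⟨la ^ 2 * c, by linear_combination la ^ 2 * hc⟩
      · refine ⟨3, ?_, fun h => absurd (dvd_mul_right _ _) h⟩
        show la ^ 5 ∣ (la * z1) ^ 2 - (⟨0, -2⟩ : Gi)
        have e : (⟨0, -2⟩ : Gi) = -la ^ 2 := by decide
        rw [e]
        exact ⟨la ^ 2 * c, by linear_combination la ^ 2 * hc⟩
  · rcases sq_unit h with h1 | h1
    · exact ⟨0, h1, fun _ => by decide⟩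
    · refine ⟨1, ?_, fun _ => by decide⟩
      show la ^ 5 ∣ z ^ 2 - (⟨-1, 0⟩ : Gi)
      have e : (⟨-1, 0⟩ : Gi) = -1 := by decide
      rw [e, sub_neg_eq_add]
      exact h1

/-- not both exponents of `1 + i` odd -/
theorem hil_aux {e y y' : Fin 2} {n n' U V W : Gi} {β γ β' γ' : ZMod 2} (hn : cl n β γ) (hn' : cl n' β' γ')
    (hp : ¬ la ∣ U ∨ ¬ la ∣ V ∨ ¬ la ∣ W)
    (h : la ^ 5 ∣ (ii ^ (y : ℕ) * la ^ (e : ℕ) * n) * W ^ 2 + (ii ^ (y' : ℕ) * n') * V ^ 2 - U ^ 2) :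
    ((y : ℕ) : ZMod 2) * β' + ((e : ℕ) : ZMod 2) * γ' + ((y' : ℕ) : ZMod 2) * β = 0 := by
  obtain ⟨s0, s1, rfl, rfl, h1⟩ := E5_cl hn
  obtain ⟨s0', s1', rfl, rfl, h1'⟩ := E5_cl hn'
  obtain ⟨p, hp1, hp2⟩ := E5_sq W
  obtain ⟨q, hq1, hq2⟩ := E5_sq V
  obtain ⟨k, hk1, hk2⟩ := E5_sq U
  have h2 := chk e y y' s0 s1 s0' s1' p q k (by
    rcases hp with hp | hp | hp
    · exact Or.inr (Or.inr (hk2 hp))
    · exact Or.inr (Or.inl (hq2 hp))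
    · exact Or.inl (hp2 hp))
  have h3 := E5_zero (E5_mul (E5_mul (E5_mul (E5_iy y) (E5_ly e)) h1) hp1) (E5_mul (E5_mul (E5_iy y') h1') hq1) hk1 h
  unfold tst at h2
  simp only [h3, Bool.not_true, Bool.false_or, beq_iff_eq] at h2
  have h4 : (((y.1 * s0'.1 + e.1 * s1'.1 + y'.1 * s0.1 : ℕ)) : ZMod 2) = 0 :=
    (ZMod.natCast_eq_zero_iff _ _).2 (Nat.dvd_of_mod_eq_zero h2)
  push_cast at h4
  exact h4

/-- both exponents of `1 + i` odd -/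
theorem hil_aux2 {y y' : Fin 2} {n n' U V W : Gi} {β γ β' γ' : ZMod 2} (hn : cl n β γ) (hn' : cl n' β' γ')
    (hp : ¬ la ∣ V ∨ ¬ la ∣ W)
    (h : la ^ 5 ∣ (ii ^ (y : ℕ) * n) * W ^ 2 + (ii ^ (y' : ℕ) * n') * V ^ 2 - la * U ^ 2) :
    ((y : ℕ) : ZMod 2) * β' + γ' + ((y' : ℕ) : ZMod 2) * β + γ = 0 := by
  obtain ⟨s0, s1, rfl, rfl, h1⟩ := E5_cl hn
  obtain ⟨s0', s1', rfl, rfl, h1'⟩ := E5_cl hn'
  obtain ⟨p, hp1, hp2⟩ := E5_sq W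
  obtain ⟨q, hq1, hq2⟩ := E5_sq V
  obtain ⟨k, hk1, hk2⟩ := E5_sq U
  have h2 := chk2 y y' s0 s1 s0' s1' p q k (by
    rcases hp with hp | hp
    · exact Or.inr (hq2 hp)
    · exact Or.inl (hp2 hp))
  have hla : E5 la (1, 1) := by
    show la ^ 5 ∣ la - (⟨1, 1⟩ : Gi)
    have : la - (⟨1, 1⟩ : Gi) = 0 := by decide
    rw [this]
    exact dvd_zero _
  have h3 := E5_zero (E5_mul (E5_mul (E5_iy y) h1) hp1) (E5_mul (E5_mul (E5_iy y') h1') hq1) (E5_mul hla hk1) h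
  unfold tst2 at h2
  simp only [h3, Bool.not_true, Bool.false_or, beq_iff_eq] at h2
  have h4 : (((y.1 * s0'.1 + s1'.1 + y'.1 * s0.1 + s1.1 : ℕ)) : ZMod 2) = 0 :=
    (ZMod.natCast_eq_zero_iff _ _).2 (Nat.dvd_of_mod_eq_zero h2)
  push_cast at h4
  exact h4

/-- **[XS-A4]** the norm residue symbol at `1 + i` -/
theorem hil {y0 y1 y0' y1' : ℕ} (h0 : y0 ≤ 1) (h1 : y1 ≤ 1) (h0' : y0' ≤ 1) (h1' : y1' ≤ 1) {n n' : Gi}
    {β γ β' γ' : ZMod 2} (hn : cl n β γ) (hn' : cl n' β' γ')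
    (h : Hs (EQ1.d5_f vla (ii ^ y0 * la ^ y1 * n)) (EQ1.d5_f vla (ii ^ y0' * la ^ y1' * n'))) :
    (y0 : ZMod 2) * β' + (y1 : ZMod 2) * γ' + (y0' : ZMod 2) * β + (y1' : ZMod 2) * γ = 0 := by
  obtain ⟨U, V, W, hp, hd⟩ := hs_int h
  have hy : ∀ y : ℕ, y ≤ 1 → ∃ z : Fin 2, y = (z : ℕ) := fun y hy => ⟨⟨y, by omega⟩, rfl⟩
  have h56 : ∀ {x : Gi}, la ^ 6 ∣ x → la ^ 5 ∣ x := fun hx => (pow_dvd_pow la (by norm_num)).trans hx
  rcases (by omega : y1' = 0 ∨ y1' = 1) with rfl | rfl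
  · obtain ⟨z0, rfl⟩ := hy y0 h0
    obtain ⟨z1, rfl⟩ := hy y1 h1
    obtain ⟨z0', rfl⟩ := hy y0' h0'
    rw [pow_zero, mul_one] at hd
    have h2 := hil_aux hn hn' hp (h56 hd)
    rw [h2, Nat.cast_zero, zero_mul, add_zero]
  · rcases (by omega : y1 = 0 ∨ y1 = 1) with rfl | rfl
    · obtain ⟨z0, rfl⟩ := hy y0 h0
      obtain ⟨z0', rfl⟩ := hy y0' h0'
      have h2 := hil_aux (e := 1) (y := z0') (y' := z0) (U := U) (V := W) (W := V) hn' hn (by tauto) (by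
        have h3 := h56 hd
        rw [pow_zero, mul_one] at h3
        have e : (ii ^ (z0' : ℕ) * la ^ ((1 : Fin 2) : ℕ) * n') * V ^ 2 + (ii ^ (z0 : ℕ) * n) * W ^ 2 - U ^ 2 =
            ii ^ (z0 : ℕ) * n * W ^ 2 + ii ^ (z0' : ℕ) * la ^ 1 * n' * V ^ 2 - U ^ 2 := by
          show (ii ^ (z0' : ℕ) * la ^ 1 * n') * V ^ 2 + (ii ^ (z0 : ℕ) * n) * W ^ 2 - U ^ 2 = _
          ring
        rw [e]
        exact h3)
      have e1 : (((1 : Fin 2) : ℕ) : ZMod 2) = 1 := rfl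
      rw [e1, one_mul] at h2
      rw [Nat.cast_zero, Nat.cast_one, zero_mul, one_mul]
      linear_combination h2
    · obtain ⟨z0, rfl⟩ := hy y0 h0
      obtain ⟨z0', rfl⟩ := hy y0' h0'
      have hU : la ∣ U := by
        have h3 : la ∣ U ^ 2 := by
          have e : U ^ 2 = la * (ii ^ (z0 : ℕ) * n * W ^ 2 + ii ^ (z0' : ℕ) * n' * V ^ 2) -
              (ii ^ (z0 : ℕ) * la ^ 1 * n * W ^ 2 + ii ^ (z0' : ℕ) * la ^ 1 * n' * V ^ 2 - U ^ 2) := by ring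
          rw [e]
          exact dvd_sub (dvd_mul_right _ _) ((dvd_pow_self la (by norm_num)).trans hd)
        exact la_prime.dvd_of_dvd_pow h3
      obtain ⟨U', rfl⟩ := hU
      have hp' : ¬ la ∣ V ∨ ¬ la ∣ W := by
        rcases hp with hp | hp | hp
        · exact absurd (dvd_mul_right _ _) hp
        · exact Or.inl hp
        · exact Or.inr hp
      have h2 := hil_aux2 (y := z0) (y' := z0') (U := U') hn hn' hp' (by
        have e : ii ^ (z0 : ℕ) * la ^ 1 * n * W ^ 2 + ii ^ (z0' : ℕ) * la ^ 1 * n' * V ^ 2 - (la * U') ^ 2 =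
            la * ((ii ^ (z0 : ℕ) * n) * W ^ 2 + (ii ^ (z0' : ℕ) * n') * V ^ 2 - la * U' ^ 2) := by ring
        rw [e, pow_succ' la 5] at hd
        exact (mul_dvd_mul_iff_left la_prime.ne_zero).1 hd)
      rw [Nat.cast_one, one_mul, one_mul]
      exact h2

end XS
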