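import Pool.Agent.XS.A3
import Pool.Agent.XQ.B1

set_option autoImplicit false

/-!
# [XS-A5] the table of the points at `1 + i`
-/

namespace XS

/-- representatives of the sixteen classes modulo `(1 + i)^7` -/
def ub (r : Fin 16) : ℤ × ℤ :=
  [(1, -16), (1, 2), (1, 4), (1, 6), (9, 0), (1, -6), (1, -4), (1, -2), (5, 0), (5, 2), (5, 4), (-3, -2), (-3, 0), (-3, 2), (5, -4), (5, -2)].getD r.1 (1, 0)

/-- their classes modulo squares -/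
def bg (r : Fin 16) : Fin 2 × Fin 2 :=
  [(0, 0), (1, 1), (0, 1), (1, 0), (0, 0), (1, 1), (0, 1), (1, 0), (0, 1), (1, 0), (0, 0), (1, 1), (0, 1), (1, 0), (0, 0), (1, 1)].getD r.1 (0, 0)

/-- the points -/
def tb : Fin 4 → Fin 4 → List (List (ℕ × ℤ × ℤ × ℕ))
  | 0, 0 => [[(1, -3, 0, 1), (8, 0, -1, 0), (9, 0, -3, 0)], [(1, -3, 0, 0), (2, -1, 2, 0)], [(2, -1, -6, 0), (3, -3, -2, 0)],
      [(1, -3, 0, 1), (3, -4, 2, 0)], [(1, -3, 0, 1), (10, -2, -1, 0), (11, -2, 1, 0)], [(1, -3, 0, 1), (2, -4, -2, 0)],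
      [(2, -3, 2, 0), (3, -1, 6, 0)], [(1, -3, 0, 0), (3, -1, -2, 0)], [(10, -2, -1, 0), (11, -2, 1, 0)],
      [(1, -3, 0, 1), (3, -4, 2, 0)], [(1, -3, 0, 1), (2, -5, -10, 0), (3, -5, 2, 0)], [(1, -3, 0, 1), (2, -4, -2, 0)],
      [(8, 0, -1, 0), (9, 0, -3, 0)], [(1, -3, 0, 1), (3, -4, 2, 0)], [(1, -3, 0, 1), (2, -5, -2, 0), (3, -5, 10, 0)],
      [(1, -3, 0, 1), (2, -4, -2, 0)]]
  | 0, 1 => [[(10, -2, -1, 0), (14, -1, -3, 0)], [(9, 0, -3, 0), (14, -1, -3, 0)], [(10, -2, -1, 0), (15, -3, -1, 0)],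
      [(9, 0, -3, 0), (15, -3, -1, 0)], [(10, -2, -1, 0), (14, -1, -3, 0)], [(9, 0, -3, 0), (14, -1, -3, 0)],
      [(10, -2, -1, 0), (15, -3, -1, 0)], [(9, 0, -3, 0), (15, -3, -1, 0)], [(10, -2, -1, 0), (15, -3, -1, 0)],
      [(9, 0, -3, 0), (15, -3, -1, 0)], [(10, -2, -1, 0), (14, -1, -3, 0)], [(9, 0, -3, 0), (14, -1, -3, 0)],
      [(10, -2, -1, 0), (15, -3, -1, 0)], [(9, 0, -3, 0), (15, -3, -1, 0)], [(10, -2, -1, 0), (14, -1, -3, 0)],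
      [(9, 0, -3, 0), (14, -1, -3, 0)]]
  | 0, 2 => [[(2, -1, 2, 0), (4, -1, -9, 0), (6, -3, -7, 0)], [(12, -1, 1, 0), (15, -3, -1, 0)], [(2, -1, 2, 0), (3, -4, 2, 0)],
      [(1, 0, -6, 0), (3, -1, -2, 0)], [(2, -1, 2, 0), (5, -3, 13, 0), (7, -1, -5, 0)], [(13, -3, 3, 0), (14, -1, 5, 0)],
      [(2, -1, 2, 0), (3, -4, 2, 0)], [(1, 0, -6, 0), (3, -1, -2, 0)], [(2, -1, 2, 0), (3, -4, 2, 0)],
      [(1, 0, -6, 0), (3, -1, -2, 0)], [(2, -1, 2, 0), (4, -1, -1, 0), (6, -11, -7, 0)], [(12, -1, 1, 0), (15, -5, 1, 0)],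
      [(2, -1, 2, 0), (3, -4, 2, 0)], [(1, 0, -6, 0), (3, -1, -2, 0)], [(2, -1, 2, 0), (5, -3, 5, 0), (7, -9, -13, 0)],
      [(13, -5, -3, 0), (14, -1, 5, 0)]]
  | 0, 3 => [[(2, -1, 2, 0), (6, -2, -6, 0)], [(2, -1, 2, 0), (5, -6, 6, 0)], [(2, -1, 2, 0), (7, -6, -2, 0)],
      [(2, -1, 2, 0), (4, -2, 2, 0)], [(2, -1, 2, 0), (6, -2, -6, 0)], [(2, -1, 2, 0), (5, -6, 6, 0)],
      [(2, -1, 2, 0), (7, -6, -2, 0)], [(2, -1, 2, 0), (4, -2, 2, 0)], [(2, -1, 2, 0), (7, -6, -2, 0)],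
      [(2, -1, 2, 0), (4, -2, 2, 0)], [(2, -1, 2, 0), (6, -2, -6, 0)], [(2, -1, 2, 0), (5, -6, 6, 0)],
      [(2, -1, 2, 0), (7, -6, -2, 0)], [(2, -1, 2, 0), (4, -2, 2, 0)], [(2, -1, 2, 0), (6, -2, -6, 0)],
      [(2, -1, 2, 0), (5, -6, 6, 0)]]
  | 1, 0 => [[(1, -3, 0, 1), (9, -6, 0, 0)], [(1, -3, 0, 1), (10, -2, 4, 0)], [(1, -3, 0, 1), (8, -2, 0, 0)],
      [(1, -3, 0, 1), (11, -2, -4, 0)], [(1, -3, 0, 1), (9, -6, 0, 0)], [(1, -3, 0, 1), (10, -2, 4, 0)],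
      [(1, -3, 0, 1), (8, -2, 0, 0)], [(1, -3, 0, 1), (11, -2, -4, 0)], [(1, -3, 0, 1), (8, -2, 0, 0)],
      [(1, -3, 0, 1), (11, -2, -4, 0)], [(1, -3, 0, 1), (9, -6, 0, 0)], [(1, -3, 0, 1), (10, -2, 4, 0)],
      [(1, -3, 0, 1), (8, -2, 0, 0)], [(1, -3, 0, 1), (11, -2, -4, 0)], [(1, -3, 0, 1), (9, -6, 0, 0)],
      [(1, -3, 0, 1), (10, -2, 4, 0)]]
  | 1, 1 => [[(4, -1, -1, 0), (8, 0, -1, 0)], [(5, -3, -3, 0), (10, -2, -1, 0)], [(5, -3, -3, 0), (8, 0, -1, 0)],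
      [(4, -1, -1, 0), (10, -2, -1, 0)], [(4, -1, -1, 0), (8, 0, -1, 0)], [(5, -3, -3, 0), (10, -2, -1, 0)],
      [(5, -3, -3, 0), (8, 0, -1, 0)], [(4, -1, -1, 0), (10, -2, -1, 0)], [(5, -3, -3, 0), (8, 0, -1, 0)],
      [(4, -1, -1, 0), (10, -2, -1, 0)], [(4, -1, -1, 0), (8, 0, -1, 0)], [(5, -3, -3, 0), (10, -2, -1, 0)],
      [(5, -3, -3, 0), (8, 0, -1, 0)], [(4, -1, -1, 0), (10, -2, -1, 0)], [(4, -1, -1, 0), (8, 0, -1, 0)],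
      [(5, -3, -3, 0), (10, -2, -1, 0)]]
  | 1, 2 => [[(1, -3, 0, 0), (9, -6, 0, 0)], [(7, -1, 3, 0), (12, -1, 1, 0)], [(1, -3, 0, 0), (8, -2, 0, 0)],
      [(4, -1, -1, 0), (14, -1, -3, 0)], [(1, -3, 0, 0), (9, -6, 0, 0)], [(7, -1, 3, 0), (12, -1, 1, 0)],
      [(1, -3, 0, 0), (8, -2, 0, 0)], [(4, -1, -1, 0), (14, -1, -3, 0)], [(1, -3, 0, 0), (8, -2, 0, 0)],
      [(5, -3, -3, 0), (15, -3, -1, 0)], [(1, -3, 0, 0), (9, -6, 0, 0)], [(6, -3, 1, 0), (13, -3, 3, 0)],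
      [(1, -3, 0, 0), (8, -2, 0, 0)], [(5, -3, -3, 0), (15, -3, -1, 0)], [(1, -3, 0, 0), (9, -6, 0, 0)],
      [(6, -3, 1, 0), (13, -3, 3, 0)]]
  | 1, 3 => [[(3, -1, -2, 0), (15, -2, 6, 0)], [(3, -1, -2, 0), (12, -2, -2, 0)], [(3, -1, -2, 0), (14, -6, 2, 0)],
      [(3, -1, -2, 0), (13, -6, -6, 0)], [(3, -1, -2, 0), (15, -2, 6, 0)], [(3, -1, -2, 0), (12, -2, -2, 0)],
      [(3, -1, -2, 0), (14, -6, 2, 0)], [(3, -1, -2, 0), (13, -6, -6, 0)], [(3, -1, -2, 0), (14, -6, 2, 0)],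
      [(3, -1, -2, 0), (13, -6, -6, 0)], [(3, -1, -2, 0), (15, -2, 6, 0)], [(3, -1, -2, 0), (12, -2, -2, 0)],
      [(3, -1, -2, 0), (14, -6, 2, 0)], [(3, -1, -2, 0), (13, -6, -6, 0)], [(3, -1, -2, 0), (15, -2, 6, 0)],
      [(3, -1, -2, 0), (12, -2, -2, 0)]]
  | 2, 0 => [[(1, -3, 0, 1), (8, 0, -1, 0), (9, -8, -3, 0)], [(1, -3, 0, 1), (2, -4, -2, 0)], [(8, 0, -1, 0), (9, -4, 1, 0)],
      [(1, -3, 0, 1), (3, -4, 2, 0)], [(1, -3, 0, 1), (8, 0, -1, 0), (9, 0, -13, 0)], [(1, -3, 0, 1), (2, -4, -2, 0)],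
      [(8, 0, -1, 0), (9, -4, -1, 0)], [(1, -3, 0, 1), (3, -4, 2, 0)], [(10, -2, -1, 0), (11, -2, 1, 0)],
      [(1, -3, 0, 1), (3, -4, 2, 0)], [(1, -3, 0, 1), (10, -2, 13, 0), (11, -6, 7, 0)], [(1, -3, 0, 1), (2, -4, -2, 0)],
      [(10, -2, 5, 0), (11, -2, -5, 0)], [(1, -3, 0, 1), (3, -4, 2, 0)], [(1, -3, 0, 1), (10, -6, -7, 0), (11, -2, -13, 0)],
      [(1, -3, 0, 1), (2, -4, -2, 0)]]
  | 2, 1 => [[(8, 0, -1, 0), (12, -1, 1, 0)], [(11, -2, 1, 0), (12, -1, 1, 0)], [(8, 0, -1, 0), (13, -3, 3, 0)],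
      [(11, -2, 1, 0), (13, -3, 3, 0)], [(8, 0, -1, 0), (12, -1, 1, 0)], [(11, -2, 1, 0), (12, -1, 1, 0)],
      [(8, 0, -1, 0), (13, -3, 3, 0)], [(11, -2, 1, 0), (13, -3, 3, 0)], [(8, 0, -1, 0), (13, -3, 3, 0)],
      [(11, -2, 1, 0), (13, -3, 3, 0)], [(8, 0, -1, 0), (12, -1, 1, 0)], [(11, -2, 1, 0), (12, -1, 1, 0)],
      [(8, 0, -1, 0), (13, -3, 3, 0)], [(11, -2, 1, 0), (13, -3, 3, 0)], [(8, 0, -1, 0), (12, -1, 1, 0)],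
      [(11, -2, 1, 0), (12, -1, 1, 0)]]
  | 2, 2 => [[(3, -1, -2, 0), (12, -1, -7, 0), (15, -3, 7, 0)], [(1, 0, -6, 0), (2, -1, 2, 0)], [(2, -4, -2, 0), (3, -1, -2, 0)],
      [(5, -3, -3, 0), (7, -1, -5, 0)], [(3, -1, -2, 0), (13, -3, -13, 0), (14, -1, 5, 0)], [(1, 0, -6, 0), (2, -1, 2, 0)],
      [(2, -4, -2, 0), (3, -1, -2, 0)], [(4, -1, -1, 0), (6, -3, 1, 0)], [(2, -4, -2, 0), (3, -1, -2, 0)],
      [(5, -5, 3, 0), (7, -1, -5, 0)], [(3, -1, -2, 0), (13, -3, -5, 0), (14, -9, 13, 0)], [(1, 0, -6, 0), (2, -1, 2, 0)],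
      [(2, -4, -2, 0), (3, -1, -2, 0)], [(4, -1, -1, 0), (6, -5, -1, 0)], [(3, -1, -2, 0), (12, -1, 1, 0), (15, -11, 7, 0)],
      [(1, 0, -6, 0), (2, -1, 2, 0)]]
  | 2, 3 => [[(2, -1, 2, 0), (6, -2, -6, 0)], [(2, -1, 2, 0), (5, -6, 6, 0)], [(2, -1, 2, 0), (7, -6, -2, 0)],
      [(2, -1, 2, 0), (4, -2, 2, 0)], [(2, -1, 2, 0), (6, -2, -6, 0)], [(2, -1, 2, 0), (5, -6, 6, 0)],
      [(2, -1, 2, 0), (7, -6, -2, 0)], [(2, -1, 2, 0), (4, -2, 2, 0)], [(2, -1, 2, 0), (7, -6, -2, 0)],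
      [(2, -1, 2, 0), (4, -2, 2, 0)], [(2, -1, 2, 0), (6, -2, -6, 0)], [(2, -1, 2, 0), (5, -6, 6, 0)],
      [(2, -1, 2, 0), (7, -6, -2, 0)], [(2, -1, 2, 0), (4, -2, 2, 0)], [(2, -1, 2, 0), (6, -2, -6, 0)],
      [(2, -1, 2, 0), (5, -6, 6, 0)]]
  | 3, 0 => [[(1, -3, 0, 1), (9, -6, 0, 0)], [(1, -3, 0, 1), (10, -2, 4, 0)], [(1, -3, 0, 1), (8, -2, 0, 0)],
      [(1, -3, 0, 1), (11, -2, -4, 0)], [(1, -3, 0, 1), (9, -6, 0, 0)], [(1, -3, 0, 1), (10, -2, 4, 0)],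
      [(1, -3, 0, 1), (8, -2, 0, 0)], [(1, -3, 0, 1), (11, -2, -4, 0)], [(1, -3, 0, 1), (8, -2, 0, 0)],
      [(1, -3, 0, 1), (11, -2, -4, 0)], [(1, -3, 0, 1), (9, -6, 0, 0)], [(1, -3, 0, 1), (10, -2, 4, 0)],
      [(1, -3, 0, 1), (8, -2, 0, 0)], [(1, -3, 0, 1), (11, -2, -4, 0)], [(1, -3, 0, 1), (9, -6, 0, 0)],
      [(1, -3, 0, 1), (10, -2, 4, 0)]]
  | 3, 1 => [[(7, -1, 3, 0), (11, -2, 1, 0)], [(6, -3, 1, 0), (9, 0, -3, 0)], [(6, -3, 1, 0), (11, -2, 1, 0)],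
      [(7, -1, 3, 0), (9, 0, -3, 0)], [(7, -1, 3, 0), (11, -2, 1, 0)], [(6, -3, 1, 0), (9, 0, -3, 0)],
      [(6, -3, 1, 0), (11, -2, 1, 0)], [(7, -1, 3, 0), (9, 0, -3, 0)], [(6, -3, 1, 0), (11, -2, 1, 0)],
      [(7, -1, 3, 0), (9, 0, -3, 0)], [(7, -1, 3, 0), (11, -2, 1, 0)], [(6, -3, 1, 0), (9, 0, -3, 0)],
      [(6, -3, 1, 0), (11, -2, 1, 0)], [(7, -1, 3, 0), (9, 0, -3, 0)], [(7, -1, 3, 0), (11, -2, 1, 0)],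
      [(6, -3, 1, 0), (9, 0, -3, 0)]]
  | 3, 2 => [[(4, -1, -1, 0), (12, -1, 1, 0)], [(1, -3, 0, 0), (10, -2, 4, 0)], [(7, -1, 3, 0), (14, -1, -3, 0)],
      [(1, -3, 0, 0), (11, -2, -4, 0)], [(4, -1, -1, 0), (12, -1, 1, 0)], [(1, -3, 0, 0), (10, -2, 4, 0)],
      [(7, -1, 3, 0), (14, -1, -3, 0)], [(1, -3, 0, 0), (11, -2, -4, 0)], [(6, -3, 1, 0), (15, -3, -1, 0)],
      [(1, -3, 0, 0), (11, -2, -4, 0)], [(5, -3, -3, 0), (13, -3, 3, 0)], [(1, -3, 0, 0), (10, -2, 4, 0)],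
      [(6, -3, 1, 0), (15, -3, -1, 0)], [(1, -3, 0, 0), (11, -2, -4, 0)], [(5, -3, -3, 0), (13, -3, 3, 0)],
      [(1, -3, 0, 0), (10, -2, 4, 0)]]
  | 3, 3 => [[(3, -1, -2, 0), (15, -2, 6, 0)], [(3, -1, -2, 0), (12, -2, -2, 0)], [(3, -1, -2, 0), (14, -6, 2, 0)],
      [(3, -1, -2, 0), (13, -6, -6, 0)], [(3, -1, -2, 0), (15, -2, 6, 0)], [(3, -1, -2, 0), (12, -2, -2, 0)],
      [(3, -1, -2, 0), (14, -6, 2, 0)], [(3, -1, -2, 0), (13, -6, -6, 0)], [(3, -1, -2, 0), (14, -6, 2, 0)],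
      [(3, -1, -2, 0), (13, -6, -6, 0)], [(3, -1, -2, 0), (15, -2, 6, 0)], [(3, -1, -2, 0), (12, -2, -2, 0)],
      [(3, -1, -2, 0), (14, -6, 2, 0)], [(3, -1, -2, 0), (13, -6, -6, 0)], [(3, -1, -2, 0), (15, -2, 6, 0)],
      [(3, -1, -2, 0), (12, -2, -2, 0)]]

/-- the exponent of `1 + i` and the prime-to-`(1+i)` part -/
def up : ℕ → ℤ × ℤ → ℕ × (ℤ × ℤ)
  | 0, z => (0, z)
  | n + 1, z =>
    if (z.1 + z.2) % 2 = 0 then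
      let r := up n ((z.1 + z.2) / 2, (z.2 - z.1) / 2)
      (r.1 + 1, r.2)
    else (0, z)

/-- `±1` modulo `(1 + i)^5` -/
def pm (z : ℤ × ℤ) : Bool := z5 (z.1 - 1, z.2) || z5 (z.1 + 1, z.2)

def pi4 : Fin 4 → ℤ × ℤ
  | 0 => (1, 0)
  | 1 => (0, 1)
  | 2 => (-1, 0)
  | 3 => (0, -1)

def pl4 : Fin 4 → ℤ × ℤ
  | 0 => (1, 0)
  | 1 => (1, 1)
  | 2 => (0, 2)
  | 3 => (-2, 2)

/-- the representative of `D` -/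
def Db (s t : Fin 4) (r : Fin 16) : ℤ × ℤ := mu (mu (pi4 s) (pl4 t)) (ub r)

/-- the test for `x = X / (1 + i)^(2 k)` -/
def okc (D : ℤ × ℤ) (y0 y1 s0 s1 : Fin 2) (X : ℤ × ℤ) (k : ℕ) : Bool :=
  let X2 := mu X X
  let a := up 40 (mu X (X2.1 - D.1 * (-4) ^ k, X2.2 - D.2 * (-4) ^ k))
  let x := up 20 X
  a.1 % 2 == 0 && pm a.2 && (x.1 + y1.1) % 2 == 0 && pm (mu (mu (iy y0) (rp s0 s1)) x.2)

/-- the class is in the local image -/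
def inW (s t : Fin 4) (r : Fin 16) (y0 y1 s0 s1 : Fin 2) : Bool :=
  let b : ZMod 2 := (bg r).1
  let g : ZMod 2 := (bg r).2
  let D := if (bg r).1 = 0 then ub r else (-(ub r).1, -(ub r).2)
  decide ((QT.kind (QT.tS s.1 b) t.1 b g D.1 D.2).P y0 y1 s0 s1)

def fnd (s t : Fin 4) (r : Fin 16) (y0 y1 s0 s1 : Fin 2) : Bool :=
  ((tb s t).getD r.1 []).any fun e => e.1 == 8 * y0.1 + 4 * y1.1 + 2 * s0.1 + s1.1 &&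
    okc (Db s t r) y0 y1 s0 s1 (e.2.1, e.2.2.1) e.2.2.2

def isD (s t : Fin 4) (r : Fin 16) (y0 y1 s0 s1 : Fin 2) : Bool :=
  y0.1 == s.1 % 2 && y1.1 == t.1 % 2 && s0 == (bg r).1 && s1 == (bg r).2

theorem chk3 : ∀ (s t : Fin 4) (r : Fin 16) (y0 y1 s0 s1 : Fin 2),
    (!(inW s t r y0 y1 s0 s1) || (y0 == 0 && y1 == 0 && s0 == 0 && s1 == 0) || isD s t r y0 y1 s0 s1 ||
      fnd s t r y0 y1 s0 s1) = true := by decide +kernel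

end XS
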