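import Pool.Agent.XS.A4
import Pool.Agent.XS.A5
import Pool.Agent.EQT.D3

set_option autoImplicit false

open NumberField IsDedekindDomain
open scoped Classical

/-!
# [XS-A6] the points at `1 + i`
-/

namespace XS

open PI (Gi KI eG emK la la_prime pl ii sy Prim la_dvd_iff t5b_lo)
open QTD

/-- the element of `ℤ[i]` -/
def tg (z : ℤ × ℤ) : Gi := ⟨z.1, z.2⟩

theorem tg_mul (a b : ℤ × ℤ) : tg (mu a b) = tg a * tg b := by
  apply Zsqrtd.ext
  · rw [PI.s1a_mul_re]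
    rfl
  · rw [PI.s1a_mul_im]
    rfl

theorem tg_up (n : ℕ) : ∀ z : ℤ × ℤ, tg z = la ^ (up n z).1 * tg (up n z).2 := by
  induction n with
  | zero =>
    intro z
    unfold up
    rw [pow_zero, one_mul]
  | succ n ih =>
    intro z
    unfold up
    split_ifs with h
    · have h1 := ih ((z.1 + z.2) / 2, (z.2 - z.1) / 2)
      show tg z = la ^ ((up n ((z.1 + z.2) / 2, (z.2 - z.1) / 2)).1 + 1) * tg (up n ((z.1 + z.2) / 2, (z.2 - z.1) / 2)).2
      rw [pow_succ', mul_assoc, ← h1]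
      unfold tg
      apply Zsqrtd.ext
      · rw [PI.s1a_mul_re]
        show z.1 = 1 * ((z.1 + z.2) / 2) - 1 * ((z.2 - z.1) / 2)
        omega
      · rw [PI.s1a_mul_im]
        show z.2 = 1 * ((z.2 - z.1) / 2) + 1 * ((z.1 + z.2) / 2)
        omega
    · show tg z = la ^ 0 * tg z
      rw [pow_zero, one_mul]

theorem z5_dvd {z : ℤ × ℤ} (h : z5 z = true) : la ^ 5 ∣ tg z := by
  unfold z5 at h
  rw [Bool.and_eq_true, beq_iff_eq, beq_iff_eq] at h
  exact la5_dvd.2 h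

theorem pm_dvd {z : ℤ × ℤ} (h : pm z = true) : la ^ 5 ∣ tg z - 1 ∨ la ^ 5 ∣ tg z + 1 := by
  unfold pm at h
  rw [Bool.or_eq_true] at h
  rcases h with h | h
  · left
    have e : tg z - 1 = tg (z.1 - 1, z.2) := by
      apply Zsqrtd.ext
      · rfl
      · show z.2 - 0 = z.2
        ring
    rw [e]
    exact z5_dvd h
  · right
    have e : tg z + 1 = tg (z.1 + 1, z.2) := by
      apply Zsqrtd.ext
      · rfl
      · show z.2 + 0 = z.2
        ring
    rw [e]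
    exact z5_dvd h

theorem pm_congr {w : Gi} {z : ℤ × ℤ} (h : E5 w z) (hz : pm z = true) : la ^ 5 ∣ w - 1 ∨ la ^ 5 ∣ w + 1 := by
  rcases pm_dvd hz with h1 | h1
  · left
    have e : w - 1 = (w - ⟨z.1, z.2⟩) + (tg z - 1) := by
      unfold tg
      ring
    rw [e]
    exact dvd_add h h1
  · right
    have e : w + 1 = (w - ⟨z.1, z.2⟩) + (tg z + 1) := by
      unfold tg
      ring
    rw [e]
    exact dvd_add h h1

theorem not_la5_one : ¬ la ^ 5 ∣ (0 : Gi) - 1 ∧ ¬ la ^ 5 ∣ (0 : Gi) + 1 := by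
  rw [la5_dvd, la5_dvd]
  simp only [Zsqrtd.re_sub, Zsqrtd.im_sub, Zsqrtd.re_add, Zsqrtd.im_add, Zsqrtd.re_one, Zsqrtd.im_one, Zsqrtd.re_zero,
    Zsqrtd.im_zero]
  omega

/-- **[XS-A6a]** a successful test gives a point -/
theorem okc_loc {D : ℤ × ℤ} {y0 y1 s0 s1 : Fin 2} {X : ℤ × ℤ} {k : ℕ} (h : okc D y0 y1 s0 s1 X k = true) {n : Gi}
    (hn : E5 n (rp s0 s1)) : LocB (emK (tg D)) (emK (ii ^ (y0 : ℕ) * la ^ (y1 : ℕ) * n)) Kv := by
  unfold okc at h
  simp only [Bool.and_eq_true, beq_iff_eq] at h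
  obtain ⟨⟨⟨h1, h2⟩, h3⟩, h4⟩ := h
  set A := mu X ((mu X X).1 - D.1 * (-4) ^ k, (mu X X).2 - D.2 * (-4) ^ k) with hA
  have eA : tg A = tg X * (tg X ^ 2 - tg D * (-4) ^ k) := by
    rw [hA, tg_mul]
    congr 1
    rw [pow_two, ← tg_mul]
    have e : ((-4 : Gi)) ^ k = (((-4 : ℤ) ^ k : ℤ) : Gi) := by push_cast; ring
    rw [e]
    apply Zsqrtd.ext
    · rw [Zsqrtd.re_sub, PI.s1a_mul_re]
      show (mu X X).1 - D.1 * (-4) ^ k = (mu X X).1 - (D.1 * (((-4 : ℤ) ^ k : ℤ) : Gi).re - D.2 * (((-4 : ℤ) ^ k : ℤ) : Gi).im)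
      rw [Zsqrtd.re_intCast, Zsqrtd.im_intCast]
      ring
    · rw [Zsqrtd.im_sub, PI.s1a_mul_im]
      show (mu X X).2 - D.2 * (-4) ^ k = (mu X X).2 - (D.1 * (((-4 : ℤ) ^ k : ℤ) : Gi).im + D.2 * (((-4 : ℤ) ^ k : ℤ) : Gi).re)
      rw [Zsqrtd.re_intCast, Zsqrtd.im_intCast]
      ring
  obtain ⟨j, hj⟩ : ∃ j, (up 40 A).1 = 2 * j := ⟨(up 40 A).1 / 2, by omega⟩
  obtain ⟨l, hl⟩ : ∃ l, (up 20 X).1 + y1.1 = 2 * l := ⟨((up 20 X).1 + y1.1) / 2, by omega⟩
  have hU := pm_dvd h2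
  have e1 : tg X * (tg X ^ 2 - tg D * (-4) ^ k) = la ^ (2 * j) * tg (up 40 A).2 := by
    rw [← eA, ← hj]
    exact tg_up 40 A
  have hX : tg X ≠ 0 := by
    intro h0
    rw [h0, zero_mul] at e1
    have h5 : tg (up 40 A).2 = 0 := (mul_eq_zero.1 e1.symm).resolve_left (pow_ne_zero _ la_prime.ne_zero)
    rw [h5] at hU
    rcases hU with hU | hU
    · exact not_la5_one.1 hU
    · exact not_la5_one.2 hU
  have hx : E5 (tg (up 20 X).2) (up 20 X).2 := by
    unfold E5 tg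
    rw [sub_self]
    exact dvd_zero _
  refine EQT.pt_la vla_as k j l hX e1 hU (V := ii ^ (y0 : ℕ) * n * tg (up 20 X).2) ?_
    (pm_congr (E5_mul (E5_mul (E5_iy y0) hn) hx) h4)
  have e2 : la ^ (2 * l) = la ^ (y1 : ℕ) * la ^ (up 20 X).1 := by
    rw [← hl, ← pow_add, add_comm]
  rw [e2]
  nth_rewrite 1 [tg_up 20 X]
  ring

/-! ### fourth roots -/

theorem fourth (u : vla.adicCompletionIntegers KI) (h : t5b_lo vla la ^ 7 ∣ u - 1) :
    ∃ r : vla.adicCompletionIntegers KI, u = r ^ 4 := by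
  have hirr := PI.t5b_la_irr vla_as
  have hp : Prime (t5b_lo vla la) := hirr.prime
  have hi := PI.t5b_ii vla
  have hla := PI.t5b_la vla
  obtain ⟨r, hr⟩ := EQ1.sq_of_l5 vla vla_as u ((pow_dvd_pow _ (by norm_num)).trans h)
  have h2 : (2 : vla.adicCompletionIntegers KI) = -(t5b_lo vla ii) * t5b_lo vla la ^ 2 := by
    rw [hla]
    linear_combination (2 : vla.adicCompletionIntegers KI) * hi + t5b_lo vla ii * hi
  have hiu : ¬ t5b_lo vla la ∣ t5b_lo vla ii := by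
    intro h1
    have h3 : t5b_lo vla la ∣ 1 := by
      have e : (1 : vla.adicCompletionIntegers KI) = t5b_lo vla ii * (-(t5b_lo vla ii)) := by linear_combination hi
      rw [e]
      exact h1.mul_right _
    exact hp.not_isUnit (isUnit_of_dvd_one h3)
  set l := t5b_lo vla la with hl
  set i := t5b_lo vla ii with hii
  obtain ⟨c, hc⟩ := h
  -- `r = 1 + l x`
  obtain ⟨x, hx⟩ : l ∣ r - 1 := by
    rcases PI.t5b_res vla_as r with h1 | h1
    · exfalso
      apply hp.not_isUnit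
      apply isUnit_of_dvd_one
      have e : (1 : vla.adicCompletionIntegers KI) = r * r - l * (l ^ 6 * c) := by linear_combination -hc + hr
      rw [e]
      exact dvd_sub (h1.mul_right _) (dvd_mul_right _ _)
    · exact h1
  have hr' : r = 1 + l * x := by linear_combination hx
  have h3 : x * (x - i * l) = l ^ 5 * c := by
    have h4 : l ^ 2 * (x * (x - i * l)) = l ^ 2 * (l ^ 5 * c) := by
      rw [hr'] at hr
      linear_combination hc - hr - l * x * h2
    exact mul_left_cancel₀ (pow_ne_zero 2 hp.ne_zero) h4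
  obtain ⟨x1, rfl⟩ : l ∣ x := by
    have h4 : l ∣ x * (x - i * l) := by
      rw [h3, pow_succ']
      exact ⟨l ^ 4 * c, by ring⟩
    rcases hp.dvd_or_dvd h4 with h5 | h5
    · exact h5
    · have e : x = (x - i * l) + l * i := by ring
      rw [e]
      exact dvd_add h5 (dvd_mul_right _ _)
  have h5 : l ^ 3 ∣ x1 * (x1 - i) := by
    refine ⟨c, ?_⟩
    have h4 : l ^ 2 * (x1 * (x1 - i)) = l ^ 2 * (l ^ 3 * c) := by linear_combination h3
    exact mul_left_cancel₀ (pow_ne_zero 2 hp.ne_zero) h4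
  by_cases h6 : l ∣ x1
  · have h7 : ¬ l ∣ x1 - i := by
      intro h7
      apply hiu
      have e : i = x1 - (x1 - i) := by ring
      rw [e]
      exact dvd_sub h6 h7
    obtain ⟨y, hy⟩ := hp.pow_dvd_of_dvd_mul_right 3 h7 h5
    obtain ⟨w, hw⟩ := EQ1.sq_of_l5 vla vla_as r ⟨y, by rw [hr', hy]; ring⟩
    exact ⟨w, by rw [hr, hw]; ring⟩
  · obtain ⟨y, hy⟩ := hp.pow_dvd_of_dvd_mul_left 3 h6 h5
    obtain ⟨w, hw⟩ := EQ1.sq_of_l5 vla vla_as (-r) ⟨-y, by
      have hy' : x1 = i + l ^ 3 * y := by linear_combination hy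
      rw [hr', hy']
      linear_combination -h2⟩
    exact ⟨w, by rw [hr]; linear_combination (-r + w * w) * hw⟩

/-- the isomorphism of the curves of `D` and `D w⁴` -/
theorem locB_fourth {F : Type} [Field F] {L : Type} [Field L] [Algebra F L] {D D0 b : F} {w : L} (hw : w ≠ 0)
    (h : algebraMap F L D = algebraMap F L D0 * w ^ 4) (hb : LocB D0 b L) : LocB D b L := by
  unfold LocB at hb ⊢
  rw [map_mul] at hb ⊢
  rcases hb with h1 | h1 | ⟨x, y, hx, hxy, h1⟩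
  · exact Or.inl h1
  · right
    left
    obtain ⟨r, hr⟩ := h1
    refine ⟨w ^ 2 * r, ?_⟩
    rw [h]
    linear_combination w ^ 4 * hr
  · right
    right
    obtain ⟨r, hr⟩ := h1
    refine ⟨w ^ 2 * x, w ^ 3 * y, mul_ne_zero (pow_ne_zero _ hw) hx, ?_, w * r, ?_⟩
    · rw [h]
      linear_combination w ^ 6 * hxy
    · linear_combination w ^ 2 * hr

/-- **[XS-A6b]** `D` matters only modulo fourth powers -/
theorem locB_congr {c u u0 : Gi} {b : KI} (hu : ¬ la ∣ u) (h : la ^ 7 ∣ u - u0)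
    (hb : LocB (emK (c * u0)) b Kv) : LocB (emK (c * u)) b Kv := by
  have hu0 : ¬ la ∣ u0 := by
    intro h1
    apply hu
    have e : u = (u - u0) + u0 := by ring
    rw [e]
    exact dvd_add ((dvd_pow_self la (by norm_num)).trans h) h1
  have h1 := PI.t5b_unit (v := vla) vla_as u0 hu0
  obtain ⟨w0, hw0⟩ := h1.exists_right_inv
  obtain ⟨z, hz⟩ := h
  obtain ⟨r, hr⟩ := fourth (t5b_lo vla u * w0) ⟨t5b_lo vla z * w0, by
    have h2 := congrArg (t5b_lo vla) hz
    rw [map_sub, map_mul, map_pow] at h2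
    linear_combination w0 * h2 + hw0⟩
  have h3 : t5b_lo vla u = t5b_lo vla u0 * r ^ 4 := by
    rw [← hr]
    linear_combination -(t5b_lo vla u) * hw0
  have h4 : algebraMap KI Kv (emK u) = algebraMap KI Kv (emK u0) * (r : Kv) ^ 4 := by
    have h5 := congrArg (fun x : vla.adicCompletionIntegers KI => (x : Kv)) h3
    exact h5
  have hr0 : (r : Kv) ≠ 0 := by
    intro h5
    rw [h5, zero_pow (by norm_num), mul_zero] at h4
    exact (map_ne_zero (algebraMap KI Kv)).2 (PID.emK_ne (fun h6 => hu (by rw [h6]; exact dvd_zero _))) h4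
  refine locB_fourth hr0 ?_ hb
  rw [map_mul, map_mul, map_mul, map_mul, h4]
  ring

end XS
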