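import Pool.Agent.XS.A6

set_option autoImplicit false

/-!
# [XS-A7] the local image at `1 + i`
-/

namespace XS

open PI (Gi KI eG emK la la_prime pl ii sy Prim la_dvd_iff)
open QTD

theorem cl_ub : ∀ r : Fin 16, cl (tg (ub r)) (bg r).1 (bg r).2 := by
  intro r
  fin_cases r <;>
  first
  | exact ⟨by decide, by decide, Or.inl ⟨rfl, rfl, by decide⟩⟩
  | exact ⟨by decide, by decide, Or.inr (Or.inl ⟨rfl, rfl, by decide⟩)⟩
  | exact ⟨by decide, by decide, Or.inr (Or.inr (Or.inl ⟨rfl, rfl, by decide⟩))⟩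
  | exact ⟨by decide, by decide, Or.inr (Or.inr (Or.inr ⟨rfl, rfl, by decide⟩))⟩

/-- the representative with the sign -/
def ubD (r : Fin 16) : ℤ × ℤ := if (bg r).1 = 0 then ub r else (-(ub r).1, -(ub r).2)

theorem tD_ub : ∀ r : Fin 16, QT.tD ((bg r).1) (tg (ub r)) = tg (ubD r) := by decide

theorem inW_of (s t : Fin 4) (r : Fin 16) (y0 y1 s0 s1 : Fin 2)
    (h : (QT.kind (QT.tS s.1 (bg r).1) t.1 (bg r).1 (bg r).2 (ubD r).1 (ubD r).2).P y0 y1 s0 s1) :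
    inW s t r y0 y1 s0 s1 = true := by
  unfold inW
  exact decide_eq_true h

open NumberField IsDedekindDomain
open scoped Classical

theorem la7_dvd {z : Gi} : la ^ 7 ∣ z ↔ (z.re - z.im) % 16 = 0 ∧ (z.re + z.im) % 16 = 0 := by
  have e : la ^ 7 = (⟨8, -8⟩ : Gi) := by decide
  rw [e]
  constructor
  · rintro ⟨c, rfl⟩
    rw [PI.s1a_mul_re, PI.s1a_mul_im]
    constructor <;> simp only <;> omega
  · rintro ⟨h1, h2⟩
    refine ⟨⟨(z.re - z.im) / 16, (z.re + z.im) / 16⟩, ?_⟩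
    apply Zsqrtd.ext
    · rw [PI.s1a_mul_re]; simp only; omega
    · rw [PI.s1a_mul_im]; simp only; omega

theorem la7_of {u : Gi} {a b : ℤ} (h1 : (u.re - a - (u.im - b)) % 16 = 0) (h2 : (u.re - a + (u.im - b)) % 16 = 0) :
    la ^ 7 ∣ u - tg (a, b) := by
  rw [la7_dvd]
  exact ⟨h1, h2⟩

/-- the sixteen classes -/
theorem exists_r {u : Gi} (h1 : u.re % 4 = 1) (h2 : u.im % 2 = 0) : ∃ r : Fin 16, la ^ 7 ∣ u - tg (ub r) := by
  have hx : u.re % 16 = 1 ∨ u.re % 16 = 5 ∨ u.re % 16 = 9 ∨ u.re % 16 = 13 := by omega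
  have hy : u.im % 16 = 0 ∨ u.im % 16 = 2 ∨ u.im % 16 = 4 ∨ u.im % 16 = 6 ∨ u.im % 16 = 8 ∨ u.im % 16 = 10 ∨
    u.im % 16 = 12 ∨ u.im % 16 = 14 := by omega
  rcases hx with hx | hx | hx | hx <;> rcases hy with hy | hy | hy | hy | hy | hy | hy | hy
  · exact ⟨0, la7_of (a := 1) (b := -16) (by omega) (by omega)⟩
  · exact ⟨1, la7_of (a := 1) (b := 2) (by omega) (by omega)⟩
  · exact ⟨2, la7_of (a := 1) (b := 4) (by omega) (by omega)⟩
  · exact ⟨3, la7_of (a := 1) (b := 6) (by omega) (by omega)⟩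
  · exact ⟨4, la7_of (a := 9) (b := 0) (by omega) (by omega)⟩
  · exact ⟨5, la7_of (a := 1) (b := -6) (by omega) (by omega)⟩
  · exact ⟨6, la7_of (a := 1) (b := -4) (by omega) (by omega)⟩
  · exact ⟨7, la7_of (a := 1) (b := -2) (by omega) (by omega)⟩
  · exact ⟨8, la7_of (a := 5) (b := 0) (by omega) (by omega)⟩
  · exact ⟨9, la7_of (a := 5) (b := 2) (by omega) (by omega)⟩
  · exact ⟨10, la7_of (a := 5) (b := 4) (by omega) (by omega)⟩
  · exact ⟨11, la7_of (a := -3) (b := -2) (by omega) (by omega)⟩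
  · exact ⟨12, la7_of (a := -3) (b := 0) (by omega) (by omega)⟩
  · exact ⟨13, la7_of (a := -3) (b := 2) (by omega) (by omega)⟩
  · exact ⟨14, la7_of (a := 5) (b := -4) (by omega) (by omega)⟩
  · exact ⟨15, la7_of (a := 5) (b := -2) (by omega) (by omega)⟩
  · exact ⟨4, la7_of (a := 9) (b := 0) (by omega) (by omega)⟩
  · exact ⟨5, la7_of (a := 1) (b := -6) (by omega) (by omega)⟩
  · exact ⟨6, la7_of (a := 1) (b := -4) (by omega) (by omega)⟩
  · exact ⟨7, la7_of (a := 1) (b := -2) (by omega) (by omega)⟩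
  · exact ⟨0, la7_of (a := 1) (b := -16) (by omega) (by omega)⟩
  · exact ⟨1, la7_of (a := 1) (b := 2) (by omega) (by omega)⟩
  · exact ⟨2, la7_of (a := 1) (b := 4) (by omega) (by omega)⟩
  · exact ⟨3, la7_of (a := 1) (b := 6) (by omega) (by omega)⟩
  · exact ⟨12, la7_of (a := -3) (b := 0) (by omega) (by omega)⟩
  · exact ⟨13, la7_of (a := -3) (b := 2) (by omega) (by omega)⟩
  · exact ⟨14, la7_of (a := 5) (b := -4) (by omega) (by omega)⟩
  · exact ⟨15, la7_of (a := 5) (b := -2) (by omega) (by omega)⟩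
  · exact ⟨8, la7_of (a := 5) (b := 0) (by omega) (by omega)⟩
  · exact ⟨9, la7_of (a := 5) (b := 2) (by omega) (by omega)⟩
  · exact ⟨10, la7_of (a := 5) (b := 4) (by omega) (by omega)⟩
  · exact ⟨11, la7_of (a := -3) (b := -2) (by omega) (by omega)⟩

theorem cl_unique {n n' : Gi} {β γ β' γ' : ZMod 2} (h : cl n β γ) (h' : cl n' β' γ') (hd : la ^ 5 ∣ n - n') :
    β = β' ∧ γ = γ' := by
  rw [la5_dvd] at hd
  simp only [Zsqrtd.re_sub, Zsqrtd.im_sub] at hd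
  obtain ⟨h1, h2, h3⟩ := h
  obtain ⟨h1', h2', h3'⟩ := h'
  rcases h3 with ⟨rfl, rfl, h3⟩ | ⟨rfl, rfl, h3⟩ | ⟨rfl, rfl, h3⟩ | ⟨rfl, rfl, h3⟩ <;>
  rcases h3' with ⟨rfl, rfl, h3'⟩ | ⟨rfl, rfl, h3'⟩ | ⟨rfl, rfl, h3'⟩ | ⟨rfl, rfl, h3'⟩ <;>
  first
  | exact ⟨rfl, rfl⟩
  | (exfalso; omega)

theorem bb_iff {p q : Prop} [Decidable p] [Decidable q] (h : p ↔ q) : QT.bb p = QT.bb q := by
  unfold QT.bb
  by_cases hp : p
  · rw [if_pos hp, if_pos (h.1 hp)]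
  · rw [if_neg hp, if_neg fun hq => hp (h.2 hq)]

/-- the kind depends only on the class modulo `(1 + i)^7` -/
theorem kind_congr7 (s t : ℕ) (b g : ZMod 2) {x y x' y' : ℤ} (h1 : (x - x' - (y - y')) % 16 = 0)
    (h2 : (x - x' + (y - y')) % 16 = 0) : QT.kind s t b g x y = QT.kind s t b g x' y' := by
  have a3 : x % 8 = x' % 8 := by omega
  have a4 : y % 8 = y' % 8 := by omega
  have a5 : (x - y) % 16 = (x' - y') % 16 := by omega
  have a6 : (x + y) % 16 = (x' + y') % 16 := by omega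
  have a7 : QT.bb ((x % 16 = 1 ∨ x % 16 = 13) ∧ y % 16 = 0 ∨ (x % 16 = 5 ∨ x % 16 = 9) ∧ y % 16 = 8) =
      QT.bb ((x' % 16 = 1 ∨ x' % 16 = 13) ∧ y' % 16 = 0 ∨ (x' % 16 = 5 ∨ x' % 16 = 9) ∧ y' % 16 = 8) :=
    bb_iff (by omega)
  unfold QT.kind
  rw [a7, a3, a4, a5, a6]

/-- the kind of `D = i^s (1+i)^t u` -/
def kd (s t : ℕ) (b g : ZMod 2) (u : Gi) : QT.LK := QT.kind (QT.tS s b) t b g (QT.tD b u).re (QT.tD b u).im

theorem kd_congr (s t : ℕ) (b g : ZMod 2) {u u' : Gi} (h : la ^ 7 ∣ u - u') : kd s t b g u = kd s t b g u' := by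
  unfold kd
  have h1 : la ^ 7 ∣ QT.tD b u - QT.tD b u' := by
    unfold QT.tD
    split_ifs
    · exact h
    · have e : -u - -u' = -(u - u') := by ring
      rw [e]
      exact h.neg_right
  rw [la7_dvd] at h1
  exact kind_congr7 _ _ _ _ h1.1 h1.2

theorem pi4_eq (s : Fin 4) : tg (pi4 s) = ii ^ (s : ℕ) := by
  fin_cases s <;> decide

theorem pl4_eq (s : Fin 4) : tg (pl4 s) = la ^ (s : ℕ) := by
  fin_cases s <;> decide

theorem sq_la5 {a : Gi} (h : la ^ 5 ∣ a - 1) : IsSquare (algebraMap KI Kv (emK a)) := EQ1.sq_of_l5' vla vla_as a h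

/-- **[XS-A7a]** the classes in the table are in the local image -/
theorem pos_la {s t : ℕ} (hs : s ≤ 3) (ht : t ≤ 3) {u n : Gi} {b g σ0 σ1 : ZMod 2} (hu : cl u b g) (hn : cl n σ0 σ1)
    {y0 y1 : ℕ} (h0 : y0 ≤ 1) (h1 : y1 ≤ 1) (hW : (kd s t b g u).P (y0 : ZMod 2) (y1 : ZMod 2) σ0 σ1) :
    LocB (emK (ii ^ s * la ^ t * u)) (emK (ii ^ y0 * la ^ y1 * n)) Kv := by
  obtain ⟨r, hr⟩ := exists_r hu.1 hu.2.1
  obtain ⟨hb, hg⟩ := cl_unique hu (cl_ub r) ((pow_dvd_pow la (by norm_num)).trans hr)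
  obtain ⟨s0, s1, rfl, rfl, hE⟩ := E5_cl hn
  obtain ⟨S, rfl⟩ : ∃ S : Fin 4, s = (S : ℕ) := ⟨⟨s, by omega⟩, rfl⟩
  obtain ⟨T, rfl⟩ : ∃ T : Fin 4, t = (T : ℕ) := ⟨⟨t, by omega⟩, rfl⟩
  obtain ⟨z0, rfl⟩ : ∃ z : Fin 2, y0 = (z : ℕ) := ⟨⟨y0, by omega⟩, rfl⟩
  obtain ⟨z1, rfl⟩ : ∃ z : Fin 2, y1 = (z : ℕ) := ⟨⟨y1, by omega⟩, rfl⟩
  have hcast : ∀ z : Fin 2, ((z : ℕ) : ZMod 2) = (z : ZMod 2) := by decide
  rw [hcast, hcast, hcast, hcast] at hW
  have h2 := chk3 S T r z0 z1 s0 s1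
  rw [Bool.or_eq_true, Bool.or_eq_true, Bool.or_eq_true] at h2
  rcases h2 with ((h2 | h2) | h2) | h2
  · exfalso
    rw [kd_congr _ _ _ _ hr, hb, hg] at hW
    unfold kd at hW
    rw [tD_ub] at hW
    have h3 : inW S T r z0 z1 s0 s1 = true := inW_of S T r z0 z1 s0 s1 hW
    rw [h3] at h2
    exact absurd h2 (by decide)
  · simp only [Bool.and_eq_true, beq_iff_eq] at h2
    obtain ⟨⟨⟨rfl, rfl⟩, rfl⟩, rfl⟩ := h2
    left
    have e : ii ^ ((0 : Fin 2) : ℕ) * la ^ ((0 : Fin 2) : ℕ) * n = n := by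
      show ii ^ 0 * la ^ 0 * n = n
      rw [pow_zero, pow_zero, one_mul, one_mul]
    rw [e]
    exact sq_la5 hE
  · unfold isD at h2
    simp only [Bool.and_eq_true, beq_iff_eq] at h2
    obtain ⟨⟨⟨e0, e1⟩, e2⟩, e3⟩ := h2
    right
    left
    obtain ⟨k, hk⟩ : ∃ k, (S : ℕ) + (z0 : ℕ) = 2 * k := ⟨((S : ℕ) + (z0 : ℕ)) / 2, by omega⟩
    obtain ⟨l, hl⟩ : ∃ l, (T : ℕ) + (z1 : ℕ) = 2 * l := ⟨((T : ℕ) + (z1 : ℕ)) / 2, by omega⟩
    have h3 : cl (u * n) 0 0 := by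
      have h4 := cl_mul hu hn
      have e4 : b + ((s0 : ℕ) : ZMod 2) = 0 := by
        rw [hb, hcast, e2]
        exact CharTwo.add_self_eq_zero _
      have e5 : g + ((s1 : ℕ) : ZMod 2) = 0 := by
        rw [hg, hcast, e3]
        exact CharTwo.add_self_eq_zero _
      rwa [e4, e5] at h4
    obtain ⟨x0, x1, ex0, ex1, h5⟩ := E5_cl h3
    have hx0 : x0 = 0 := by
      rw [hcast] at ex0
      exact ex0.symm
    have hx1 : x1 = 0 := by
      rw [hcast] at ex1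
      exact ex1.symm
    subst hx0 hx1
    have h6 : la ^ 5 ∣ u * n - 1 := h5
    have e6 : ii ^ (S : ℕ) * la ^ (T : ℕ) * u * (ii ^ (z0 : ℕ) * la ^ (z1 : ℕ) * n) = (u * n) * (ii ^ k * la ^ l) ^ 2 := by
      calc _ = (ii ^ ((S : ℕ) + (z0 : ℕ))) * (la ^ ((T : ℕ) + (z1 : ℕ))) * (u * n) := by
            rw [pow_add, pow_add]
            ring
        _ = _ := by
            rw [hk, hl, pow_mul', pow_mul' la]
            ring
    rw [← map_mul, e6, map_mul, map_mul, map_pow, map_pow]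
    have h7 := sq_la5 h6
    exact h7.mul (by rw [pow_two]; exact ⟨_, rfl⟩)
  · unfold fnd at h2
    obtain ⟨e, -, he⟩ := List.any_eq_true.1 h2
    rw [Bool.and_eq_true] at he
    have h3 := okc_loc he.2 hE
    have h4 : tg (Db S T r) = (ii ^ (S : ℕ) * la ^ (T : ℕ)) * tg (ub r) := by
      unfold Db
      rw [tg_mul, tg_mul, pi4_eq, pl4_eq]
    rw [h4] at h3
    have hul : ¬ la ∣ u := by
      rw [la_dvd_iff]
      have := hu.1
      have := hu.2.1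
      omega
    exact locB_congr hul hr h3

end XS
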