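import Pool.Agent.XS.A7

set_option autoImplicit false

open NumberField IsDedekindDomain
open scoped Classical

/-!
# [XS-A8] the local image at `1 + i` is exactly the subspace of the table
-/

namespace XS

open PI (Gi KI eG emK la la_prime pl ii sy Prim la_dvd_iff)
open QTD

/-- a representative of every class -/
theorem exists_cl (β γ : ZMod 2) : ∃ n : Gi, cl n β γ := by
  have h : ∀ x : ZMod 2, x = 0 ∨ x = 1 := by decide
  rcases h β with rfl | rfl <;> rcases h γ with rfl | rfl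
  · exact ⟨⟨1, 0⟩, by decide, by decide, Or.inl ⟨rfl, rfl, by decide⟩⟩
  · exact ⟨⟨5, 0⟩, by decide, by decide, Or.inr (Or.inl ⟨rfl, rfl, by decide⟩)⟩
  · exact ⟨⟨5, 2⟩, by decide, by decide, Or.inr (Or.inr (Or.inl ⟨rfl, rfl, by decide⟩))⟩
  · exact ⟨⟨1, 2⟩, by decide, by decide, Or.inr (Or.inr (Or.inr ⟨rfl, rfl, by decide⟩))⟩

theorem cl_ne {n : Gi} {β γ : ZMod 2} (h : cl n β γ) : n ≠ 0 := by
  rintro rfl
  have := h.1
  simp at this

theorem form_ne {x y : ℕ} {n : Gi} (hn : n ≠ 0) : emK (ii ^ x * la ^ y * n) ≠ 0 :=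
  PID.emK_ne (mul_ne_zero (mul_ne_zero (pow_ne_zero _ PID.d14c_ii_ne) (pow_ne_zero _ la_prime.ne_zero)) hn)

theorem exists_nat : ∀ x : ZMod 2, ∃ k : ℕ, k ≤ 1 ∧ (k : ZMod 2) = x := by
  intro x
  have h : ∀ x : ZMod 2, x = 0 ∨ x = 1 := by decide
  rcases h x with rfl | rfl
  · exact ⟨0, by norm_num, rfl⟩
  · exact ⟨1, by norm_num, rfl⟩

/-- **[XS-A8]** the local image at `1 + i` -/
theorem loc_vla {s t : ℕ} (hs : s ≤ 3) (ht : t ≤ 3) {u n : Gi} {b g σ0 σ1 : ZMod 2} (hu : cl u b g) (hn : cl n σ0 σ1)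
    {y0 y1 : ℕ} (h0 : y0 ≤ 1) (h1 : y1 ≤ 1) :
    LocB (emK (ii ^ s * la ^ t * u)) (emK (ii ^ y0 * la ^ y1 * n)) Kv ↔
      (kd s t b g u).P (y0 : ZMod 2) (y1 : ZMod 2) σ0 σ1 := by
  refine ⟨fun h => ?_, pos_la hs ht hu hn h0 h1⟩
  have h2 : (![(y0 : ZMod 2), (y1 : ZMod 2)], ![σ0, σ1]) ∈ (kd s t b g u).W := by
    rw [(kd s t b g u).lag]
    intro p hp
    obtain ⟨z0, hz0, e0⟩ := exists_nat (p.1 0)
    obtain ⟨z1, hz1, e1⟩ := exists_nat (p.1 1)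
    obtain ⟨m, hm⟩ := exists_cl (p.2 0) (p.2 1)
    have hp' : (kd s t b g u).P (z0 : ZMod 2) (z1 : ZMod 2) (p.2 0) (p.2 1) := by
      rw [e0, e1]
      exact hp
    have h3 := pos_la hs ht hu hm hz0 hz1 hp'
    have h4 := iso (j := algebraMap KI Kv (emK ii)) (by
      rw [← map_pow, ← map_pow]
      have e : ii ^ 2 = -1 := by decide
      rw [e, map_neg, map_neg, map_one, map_one]) (PI.t5b_two_ne vla) (form_ne (cl_ne hu)) (form_ne (cl_ne hm))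
      (form_ne (cl_ne hn)) h3 h
    have h5 := hil hz0 hz1 h0 h1 hm hn h4
    rw [e0, e1] at h5
    rw [QT.om_two]
    show p.1 0 * σ0 - (y0 : ZMod 2) * p.2 0 + (p.1 1 * σ1 - (y1 : ZMod 2) * p.2 1) = 0
    have h6 : (2 : ZMod 2) = 0 := by decide
    linear_combination h5 - ((y0 : ZMod 2) * p.2 0 + (y1 : ZMod 2) * p.2 1) * h6
  exact h2

/-- the place `1 + i` -/
theorem eq_vla {v : HeightOneSpectrum (𝓞 KI)} (hv : v.asIdeal = Ideal.span {eG la}) : v = vla := by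
  apply HeightOneSpectrum.ext
  rw [hv, vla_as]

theorem loc_la {s t : ℕ} (hs : s ≤ 3) (ht : t ≤ 3) {u n : Gi} {b g σ0 σ1 : ZMod 2} (hu : cl u b g) (hn : cl n σ0 σ1)
    {y0 y1 : ℕ} (h0 : y0 ≤ 1) (h1 : y1 ≤ 1) {v : HeightOneSpectrum (𝓞 KI)} (hv : v.asIdeal = Ideal.span {eG la}) :
    LocB (emK (ii ^ s * la ^ t * u)) (emK (ii ^ y0 * la ^ y1 * n)) (v.adicCompletion KI) ↔
      (kd s t b g u).P (y0 : ZMod 2) (y1 : ZMod 2) σ0 σ1 := by
  rw [eq_vla hv]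
  exact loc_vla hs ht hu hn h0 h1

end XS
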