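import Pool.Agent.XS.A11
import Pool.Agent.XQ.A6

set_option autoImplicit false

open scoped Classical
open Finset Filter Topology

/-!
# [XS-B1] the exact proportion of the quartic twists with the smallest possible Selmer group
-/

namespace XS

open PI QT QTD

/-- **[XS-B1]** **All quartic twists over `ℚ(i)`.** Among all the nonzero `D ∈ ℤ[i]` without fourth powers, ordered by the norm, the proportion of those for
which the Selmer group of `1 + i` of `y² = x³ - D x` over `ℚ(i)` is generated by the class of `D` tends to `∏_{k ≥ 1} (1 + 2^(-k))⁻¹ = 0.41942…`. -/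
theorem sel_lim :
    Tendsto (fun X => (quarA X).ncard) atTop atTop ∧
    Tendsto (fun X => ((quarP (fun D => SelTriv KI (emK D)) X).ncard : ℝ) / ((quarA X).ncard : ℝ)) atTop (𝓝 XD.alp2) :=
  quar_lim_min qloc fun _ _ _ _ h => sel_iff_min h

end XS
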